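import Pool.Agent.Lib.MP_b5021c_nt.IfaceAM
import Pool.Agent.Lib.MP_b5021c_nt.E.H47.E4

/-!
# Board b5, leaf O4, rows OVL and RAY4 (helper29)

`C` a cycle of mutual rays of any length, `S0 = C i`, `S1 = C (i+1)`, `V''` any double closing of
`S0`, `S1` (ports `i0`, `i1`, loads `u0`, `u1`).  `R` a ray outside the cycle without the ports `i0`,
`i1`.

`ray4`: if `V''_R ≠ 0` then `R` is a ray of `V''`.
`ovl`: if `R` meets `S0` or `S1` then `V''_R = D_R`.
-/

set_option linter.unusedSectionVars false

namespace Pool.Agent.B5.KO29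

open scoped LaurentPolynomial
open AddMonoidAlgebra Pool.Agent.B5.H47

section

variable {O : Type} [CommRing O] [IsDomain O] [IsPrincipalIdealRing O] [Coef O] {P : Type}
  [Fintype P] [DecidableEq P] {L : Type} [AddCommGroup L] [Module.Free ℤ L] [Module.Finite ℤ L]

/-- A sum of elements with `lam ≥ 0` and `lam = 0` is a sum of elements with `lam = 0`. -/
theorem clos_zero {B : Set L} {lam : L →+ ℤ} (hB : ∀ b ∈ B, 0 ≤ lam b) {y : L}
    (hy : y ∈ AddSubmonoid.closure B) :
    0 ≤ lam y ∧ (lam y = 0 → y ∈ AddSubmonoid.closure {b | b ∈ B ∧ lam b = 0}) := by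
  induction hy using AddSubmonoid.closure_induction with
  | mem y hy =>
    exact ⟨hB y hy, fun h => AddSubmonoid.subset_closure ⟨hy, h⟩⟩
  | zero => exact ⟨by rw [map_zero], fun _ => zero_mem _⟩
  | add y z _ _ hy hz =>
    refine ⟨by rw [map_add]; exact add_nonneg hy.1 hz.1, fun h => ?_⟩
    rw [map_add] at h
    have h1 := hy.1
    have h2 := hz.1
    exact add_mem (hy.2 (by omega)) (hz.2 (by omega))

theorem clos_three {a b c y : L} {B : Set L} (hB : ∀ x ∈ B, x = a ∨ x = b ∨ x = c)
    (hy : y ∈ AddSubmonoid.closure B) : ∃ r s t : ℕ, y = r • a + s • b + t • c := by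
  induction hy using AddSubmonoid.closure_induction with
  | mem y hy =>
    rcases hB y hy with h | h | h
    · exact ⟨1, 0, 0, by simp [h]⟩
    · exact ⟨0, 1, 0, by simp [h]⟩
    · exact ⟨0, 0, 1, by simp [h]⟩
  | zero => exact ⟨0, 0, 0, by simp⟩
  | add y z _ _ hy hz =>
    obtain ⟨r, s, t, h1⟩ := hy
    obtain ⟨r', s', t', h2⟩ := hz
    exact ⟨r + r', s + s', t + t', by rw [h1, h2]; simp only [add_smul]; abel⟩

variable {phi : L →+ (P → ℤ)} {D : AO O L} {eta : L → (RO O)ˣ} {k : ℕ} {C : ZMod (k + 3) → L}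
  {mu : ZMod (k + 3) → L →+ ℤ}

theorem ne_succ (i : ZMod (k + 3)) : i ≠ i + 1 := by
  intro h
  have h1 : (1 : ZMod (k + 3)) = 0 := by
    have := congrArg (fun x => x - i) h
    simpa using this.symm
  have : ((1 : ℕ) : ZMod (k + 3)) = 0 := by exact_mod_cast h1
  rw [ZMod.natCast_eq_zero_iff] at this
  have := Nat.le_of_dvd one_pos this
  omega

theorem Cyc.rayC (h : Cyc phi D eta k C mu) (i : ZMod (k + 3)) : Ray D (C i) := (h.mtl i).r0

theorem Cyc.self (h : Cyc phi D eta k C mu) (i : ZMod (k + 3)) : mu i (C i) = 0 := by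
  apply h.oth i _ (Cyc.rayC h i)
  · intro h1
    exact ne_succ i (h.inj h1)
  · intro h1
    have h2 := h.inj h1
    apply ne_succ (i - 1)
    rw [sub_add_cancel]
    exact h2.symm

/-- The functional which vanishes on `S0`, `S1`, `R` and is positive on all other rays. -/
theorem face (h : Cyc phi D eta k C mu) (i : ZMod (k + 3)) {R : L} (hR : Ray D R)
    (hne : ∀ j, C j ≠ R) :
    ∃ lam : L →+ ℤ, lam (C i) = 0 ∧ lam (C (i + 1)) = 0 ∧ lam R = 0 ∧
      ∀ T, Ray D T → T ≠ C i → T ≠ C (i + 1) → T ≠ R → 0 < lam T := by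
  obtain ⟨hRs, hR0, la, la0, la1⟩ := hR
  have hRr : Ray D R := ⟨hRs, hR0, la, la0, la1⟩
  have hp : ∀ T, Ray D T → T ≠ R → 0 < la T := fun T hT hTR => la1 T hT.1 hT.2.1 hTR
  have ha : 0 < la (C i) := hp _ (Cyc.rayC h i) (hne i)
  have hb : 0 < la (C (i + 1)) := hp _ (Cyc.rayC h (i + 1)) (hne (i + 1))
  have n1 : mu (i + 1) (C i) = -1 := by
    have := h.prv (i + 1)
    rwa [add_sub_cancel_right] at this
  have n2 : mu i (C (i + 1)) = 1 := h.nxt i
  have n3 : mu i (C i) = 0 := Cyc.self h i
  have n4 : mu (i + 1) (C (i + 1)) = 0 := Cyc.self h (i + 1)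
  have n5 : mu i R = 0 := h.oth i R hRr (fun h1 => hne _ h1.symm) (fun h1 => hne _ h1.symm)
  have n6 : mu (i + 1) R = 0 :=
    h.oth (i + 1) R hRr (fun h1 => hne _ h1.symm) (fun h1 => hne _ h1.symm)
  refine ⟨la + la (C i) • mu (i + 1) - la (C (i + 1)) • mu i, ?_, ?_, ?_, ?_⟩
  · change la (C i) + la (C i) • mu (i + 1) (C i) - la (C (i + 1)) • mu i (C i) = 0
    rw [n1, n3]
    simp
  · change la (C (i + 1)) + la (C i) • mu (i + 1) (C (i + 1)) -
      la (C (i + 1)) • mu i (C (i + 1)) = 0
    rw [n2, n4]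
    simp
  · change la R + la (C i) • mu (i + 1) R - la (C (i + 1)) • mu i R = 0
    rw [n5, n6, la0]
    simp
  · intro T hT h1 h2 h3
    change 0 < la T + la (C i) • mu (i + 1) T - la (C (i + 1)) • mu i T
    have h4 := hp T hT h3
    have h5 : 0 ≤ mu (i + 1) T := by
      by_cases h6 : T = C (i + 1 + 1)
      · rw [h6, h.nxt]
        exact zero_le_one
      · rw [h.oth (i + 1) T hT h6 (by rwa [add_sub_cancel_right])]
    have h7 : mu i T ≤ 0 := by
      by_cases h6 : T = C (i - 1)
      · rw [h6, h.prv]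
        omega
      · rw [h.oth i T hT h2 h6]
    have h8 : 0 ≤ la (C i) * mu (i + 1) T := mul_nonneg ha.le h5
    have h9 : la (C (i + 1)) * mu i T ≤ 0 := mul_nonpos_of_nonneg_of_nonpos hb.le h7
    simp only [smul_eq_mul]
    linarith

/-- (RAY4) `R` is a ray of the double closing. -/
theorem ray4 (hRS : RaySpanS) (hi : Function.Injective phi) (hb : ∀ a ∈ supp D, Bin phi a)
    (hpos : ∃ lam : L →+ ℤ, Pos lam D) (hthin : Thin (supp D)) (h : Cyc phi D eta k C mu)
    (i : ZMod (k + 3)) (X : Dp phi (C i) (C (i + 1))) (u0 u1 : (RO O)ˣ) {R : L} (hR : Ray D R)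
    (hne : ∀ j, C j ≠ R) (R' : Ker X.k1) (hR' : ((R' : Ker (co phi X.i0)) : L) = R)
    (hc : (dc X u0 u1 D).coeff R' ≠ 0) : Ray (dc X u0 u1 D) R' := by
  have hd : ∀ p, phi (C i) p = 0 ∨ phi (C (i + 1)) p = 0 := h.dis i (i + 1) (ne_succ i)
  obtain ⟨lam, l0, l1, lR, lp⟩ := face h i hR hne
  have p0 : phi (C i) X.i0 = 1 := X.h0
  have p1 : phi (C (i + 1)) X.i1 = 1 := by
    have h1 := X.hk X.T
    rw [X.h1, X.eT] at h1
    exact h1.symm
  have p2 : phi (C i) X.i1 = 0 := (hd X.i1).resolve_right (by omega)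
  have p3 : phi (C (i + 1)) X.i0 = 0 := (hd X.i0).resolve_left (by omega)
  have hx0 : ∀ x : Ker X.k1, phi (((x : Ker X.k1) : Ker (co phi X.i0)) : L) X.i0 = 0 :=
    fun x => (x : Ker (co phi X.i0)).2
  have hx1 : ∀ x : Ker X.k1, phi (((x : Ker X.k1) : Ker (co phi X.i0)) : L) X.i1 = 0 :=
    fun x => by rw [← X.hk]; exact x.2
  have r0 : phi R X.i0 = 0 := by rw [← hR']; exact hx0 R'
  have r1 : phi R X.i1 = 0 := by rw [← hR']; exact hx1 R'
  have hR0 : R' ≠ 0 := by
    rintro rfl
    exact hR.2.1 hR'.symm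
  have hbR : Bin phi R := hb _ hR.1
  refine ⟨hc, hR0, (lam.comp (incl (Ker (co phi X.i0)))).comp (incl (Ker X.k1)), ?_, ?_⟩
  · change lam ((R' : Ker (co phi X.i0)) : L) = 0
    rw [hR', lR]
  · intro x hx hx0' hxR
    change 0 < lam ((x : Ker (co phi X.i0)) : L)
    set y : L := ((x : Ker (co phi X.i0)) : L) with hy
    -- the exponent of `D`
    have hxc : (dc X u0 u1 D).coeff x ≠ 0 := hx
    rw [E4.dc_coeff hb hd, dco] at hxc
    obtain ⟨a, ha, m, n, hmn⟩ : ∃ a ∈ supp D, ∃ m n : ℕ, a = y + m • C i + n • C (i + 1) := by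
      by_contra hcon
      push Not at hcon
      apply hxc
      have q0 : D.coeff y = 0 := by
        by_contra q
        exact hcon y q 0 0 (by simp)
      have q1 : D.coeff (y + C i) = 0 := by
        by_contra q
        exact hcon _ q 1 0 (by simp)
      have q2 : D.coeff (y + C (i + 1)) = 0 := by
        by_contra q
        exact hcon _ q 0 1 (by simp)
      have q3 : D.coeff (y + C i + C (i + 1)) = 0 := by
        by_contra q
        exact hcon _ q 1 1 (by simp)
      simp only [← hy, q0, q1, q2, q3, mul_zero, add_zero]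
    have hla : lam a = lam y := by
      rw [hmn, map_add, map_add, map_nsmul, map_nsmul, l0, l1]
      simp
    rw [← hla]
    by_cases ha0 : a = 0
    · exfalso
      -- `y = - m S0 - n S1`, so `y = 0`
      have e0 : phi a X.i0 = 0 := by rw [ha0, map_zero]; rfl
      have e1 : phi a X.i1 = 0 := by rw [ha0, map_zero]; rfl
      rw [hmn, map_add, map_add, map_nsmul, map_nsmul] at e0 e1
      simp only [Pi.add_apply, Pi.smul_apply, p0, p1, p2, p3, hy, hx0, hx1] at e0 e1
      have m0 : m = 0 := by simpa using e0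
      have n0 : n = 0 := by simpa using e1
      apply hx0'
      apply Subtype.ext
      apply Subtype.ext
      change y = 0
      rw [ha0, m0, n0] at hmn
      simpa using hmn.symm
    obtain ⟨N, hN, hcl⟩ := (hRS O L D hpos hthin).1 a ha ha0
    have hB : ∀ b ∈ {b | Ray D b}, 0 ≤ lam b := by
      intro b hb'
      by_cases c1 : b = C i
      · rw [c1, l0]
      by_cases c2 : b = C (i + 1)
      · rw [c2, l1]
      by_cases c3 : b = R
      · rw [c3, lR]
      exact (lp b hb' c1 c2 c3).le
    obtain ⟨g1, g2⟩ := clos_zero hB hcl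
    rw [map_nsmul, nsmul_eq_mul] at g1 g2
    have hN' : (0 : ℤ) < N := by exact_mod_cast hN
    by_contra hlt
    have hz : lam a = 0 := by
      have h2 : lam a ≤ 0 := not_lt.1 hlt
      have h3 : 0 ≤ lam a := by
        by_contra h4
        have := mul_neg_of_pos_of_neg hN' (not_le.1 h4)
        omega
      omega
    have g3 := g2 (by rw [hz, mul_zero])
    obtain ⟨r, s, t, hrst⟩ := clos_three (a := R) (b := C i) (c := C (i + 1)) (by
      rintro b ⟨hb1, hb2⟩
      by_contra hcon
      push Not at hcon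
      have := lp b hb1 hcon.2.1 hcon.2.2 hcon.1
      omega) g3
    -- values at the ports
    have hport : ∀ p, (N : ℤ) * phi a p =
        r * phi R p + s * phi (C i) p + t * phi (C (i + 1)) p := by
      intro p
      have := congrArg (fun v => phi v p) hrst
      simp only [map_add, map_nsmul, Pi.add_apply, Pi.smul_apply, nsmul_eq_mul] at this
      exact this
    have bin : ∀ p, (N : ℤ) * phi a p = 0 ∨ (N : ℤ) * phi a p = N := by
      intro p
      rcases hb a ha p with c | c
      · left; rw [c, mul_zero]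
      · right; rw [c, mul_one]
    have hs : (s : ℤ) = 0 ∨ (s : ℤ) = N := by
      have c := bin X.i0
      rw [hport, r0, p0, p3] at c
      simpa using c
    have ht : (t : ℤ) = 0 ∨ (t : ℤ) = N := by
      have c := bin X.i1
      rw [hport, r1, p1, p2] at c
      simpa using c
    have hr : (r : ℤ) = 0 ∨ (r : ℤ) = N := by
      -- a port of `R`
      obtain ⟨p, hp⟩ : ∃ p, phi R p = 1 := by
        by_contra hcon
        push Not at hcon
        apply hR.2.1
        apply hi
        rw [map_zero]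
        funext p
        exact (hbR p).resolve_right (hcon p)
      have c := bin p
      rw [hport, hp] at c
      have cr : (0 : ℤ) ≤ r := Int.natCast_nonneg r
      have b0 := hb _ (Cyc.rayC h i).1 p
      have b1 := hb _ (Cyc.rayC h (i + 1)).1 p
      rcases hd p with d | d
      · rw [d] at c
        rcases b1 with b1 | b1 <;> rw [b1] at c <;> rcases ht with ht | ht <;> rw [ht] at c <;>
          rcases c with c | c <;> simp at c <;> omega
      · rw [d] at c
        rcases b0 with b0 | b0 <;> rw [b0] at c <;> rcases hs with hs | hs <;> rw [hs] at c <;>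
          rcases c with c | c <;> simp at c <;> omega
    -- `N y = r R`
    have hyN : (N : ℤ) • y = (r : ℤ) • R := by
      have e1 : (N : ℤ) • a = (r : ℤ) • R + (s : ℤ) • C i + (t : ℤ) • C (i + 1) := by
        simpa only [natCast_zsmul] using hrst
      have e2 : (N : ℤ) • y = (r : ℤ) • R + ((s : ℤ) - N * m) • C i +
          ((t : ℤ) - N * n) • C (i + 1) := by
        have e3 : y = a - (m : ℤ) • C i - (n : ℤ) • C (i + 1) := by
          rw [hmn]
          simp only [natCast_zsmul]
          abel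
        rw [e3, smul_sub, smul_sub, e1, smul_smul, smul_smul, sub_smul, sub_smul]
        abel
      have f0 := congrArg (fun v => phi v X.i0) e2
      have f1 := congrArg (fun v => phi v X.i1) e2
      simp only [map_add, map_zsmul, Pi.add_apply, Pi.smul_apply, smul_eq_mul, p0, p1, p2, p3,
        r0, r1] at f0 f1
      rw [hy, hx0] at f0
      rw [hy, hx1] at f1
      have f2 : (s : ℤ) - N * m = 0 := by simpa using f0.symm
      have f3 : (t : ℤ) - N * n = 0 := by simpa using f1.symm
      rw [e2, f2, f3, zero_smul, zero_smul, add_zero, add_zero]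
    have hinj : ∀ v w : L, (N : ℤ) • v = (N : ℤ) • w → v = w := by
      intro v w hvw
      apply hi
      funext p
      have := congrArg (fun z => phi z p) hvw
      simp only [map_zsmul, Pi.smul_apply, smul_eq_mul] at this
      exact mul_left_cancel₀ hN'.ne' this
    rcases hr with hr | hr
    · apply hx0'
      apply Subtype.ext
      apply Subtype.ext
      change y = 0
      apply hinj
      rw [hyN, hr, zero_smul, smul_zero]
    · apply hxR
      apply Subtype.ext
      apply Subtype.ext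
      rw [hR']
      change y = R
      apply hinj
      rw [hyN, hr]

/-- (OVL) the coefficient of `R` in the double closing. -/
theorem ovl (hF1 : F1S) (hi : Function.Injective phi) (hb : ∀ a ∈ supp D, Bin phi a)
    (h : Cyc phi D eta k C mu) (i : ZMod (k + 3)) (X : Dp phi (C i) (C (i + 1)))
    (u0 u1 : (RO O)ˣ) {R : L} (hR : Ray D R) (hne : ∀ j, C j ≠ R)
    (hov : ∃ p, phi R p = 1 ∧ (phi (C i) p = 1 ∨ phi (C (i + 1)) p = 1))
    (R' : Ker X.k1) (hR' : ((R' : Ker (co phi X.i0)) : L) = R) :
    (dc X u0 u1 D).coeff R' = D.coeff R := by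
  have hd : ∀ p, phi (C i) p = 0 ∨ phi (C (i + 1)) p = 0 := h.dis i (i + 1) (ne_succ i)
  have p0 : phi (C i) X.i0 = 1 := X.h0
  have p1 : phi (C (i + 1)) X.i1 = 1 := by
    have h1 := X.hk X.T
    rw [X.h1, X.eT] at h1
    exact h1.symm
  have p2 : phi (C i) X.i1 = 0 := (hd X.i1).resolve_right (by omega)
  have p3 : phi (C (i + 1)) X.i0 = 0 := (hd X.i0).resolve_left (by omega)
  have r0 : phi R X.i0 = 0 := by rw [← hR']; exact (R' : Ker (co phi X.i0)).2
  have r1 : phi R X.i1 = 0 := by rw [← hR', ← X.hk]; exact R'.2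
  have n1 : mu (i + 1) (C i) = -1 := by
    have := h.prv (i + 1)
    rwa [add_sub_cancel_right] at this
  have n2 : mu i (C (i + 1)) = 1 := h.nxt i
  have n5 : mu i R = 0 := h.oth i R hR (fun h1 => hne _ h1.symm) (fun h1 => hne _ h1.symm)
  have n6 : mu (i + 1) R = 0 :=
    h.oth (i + 1) R hR (fun h1 => hne _ h1.symm) (fun h1 => hne _ h1.symm)
  have two : ∀ (a : L) (p : P), phi a p = 2 → D.coeff a = 0 := by
    intro a p hp
    by_contra hc
    rcases hb a hc p with c | c <;> omega
  rw [E4.dc_coeff hb hd, dco, hR']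
  obtain ⟨p, hp, hq⟩ := hov
  rcases hq with hq | hq
  · have z1 : phi (C (i + 1)) p = 0 := (hd p).resolve_left (by omega)
    have c1 : D.coeff (R + C i) = 0 := two _ p (by
      rw [map_add, Pi.add_apply, hp, hq]; norm_num)
    have c2 : D.coeff (R + C i + C (i + 1)) = 0 := two _ p (by
      rw [map_add, map_add, Pi.add_apply, Pi.add_apply, hp, hq, z1]; norm_num)
    have c3 : D.coeff (R + C (i + 1)) = 0 := by
      refine (hF1 O P L phi D (C i) (eta (C i)) hi hb (hb _ (Cyc.rayC h i).1)
        (Cyc.rayC h i).2.1 (R + C (i + 1)) ?_).1 ⟨p, ?_, hq⟩ ⟨X.i0, ?_, p0⟩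
      · intro hU
        have := (h.ker i _).1 hU
        rw [map_add, n5, n2] at this
        omega
      · rw [map_add, Pi.add_apply, hp, z1, add_zero]
      · rw [map_add, Pi.add_apply, r0, p3, add_zero]
    rw [c1, c2, c3]
    simp
  · have z1 : phi (C i) p = 0 := (hd p).resolve_right (by omega)
    have c1 : D.coeff (R + C (i + 1)) = 0 := two _ p (by
      rw [map_add, Pi.add_apply, hp, hq]; norm_num)
    have c2 : D.coeff (R + C i + C (i + 1)) = 0 := two _ p (by
      rw [map_add, map_add, Pi.add_apply, Pi.add_apply, hp, hq, z1]; norm_num)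
    have c3 : D.coeff (R + C i) = 0 := by
      refine (hF1 O P L phi D (C (i + 1)) (eta (C (i + 1))) hi hb
        (hb _ (Cyc.rayC h (i + 1)).1)
        (Cyc.rayC h (i + 1)).2.1 (R + C i) ?_).1 ⟨p, ?_, hq⟩ ⟨X.i1, ?_, p1⟩
      · intro hU
        have := (h.ker (i + 1) _).1 hU
        rw [map_add, n6, n1] at this
        omega
      · rw [map_add, Pi.add_apply, hp, z1, add_zero]
      · rw [map_add, Pi.add_apply, r1, p2, add_zero]
    rw [c1, c2, c3]
    simp

end

end Pool.Agent.B5.KO29
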