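import Pool.Agent.Lib.MP_b5021c_nt.IfaceKO
import Pool.Agent.Lib.MP_b5021c_nt.OF.H29.Of1

/-!
# Board b5, ALL `θ`, K ODD, row KO_OFA
-/

namespace Pool.Agent.B5.OFH29

open scoped LaurentPolynomial
open Polynomial Pool.Agent.B5

/-- The numbers of a counterexample. -/
theorem ko_nums {P L : Type} [Fintype P] [DecidableEq P] [AddCommGroup L] [Module.Free ℤ L]
    [Module.Finite ℤ L] {phi : L →+ (P → ℤ)} {D : AO ℤ L} {q : ℤ[X]} {a : ℝ} {j : ℕ}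
    (W : Ko phi D q a j) : 0 < a ∧ a ≤ 1 / 2 ∧ a⁻¹ < j + 1 := by
  have ha := W.qn.a0
  have hj : (2 : ℝ) ≤ j := by exact_mod_cast W.j2
  have h1 := W.mu
  have h2 : 2 < a⁻¹ := by linarith
  refine ⟨ha, ?_, ?_⟩
  · have h3 := mul_lt_mul_of_pos_right h2 ha
    rw [inv_mul_cancel₀ ha.ne'] at h3
    linarith
  · have h3 := W.lt
    rw [inv_lt_iff_one_lt_mul₀ ha]
    linarith

/-- Row KO_OFA. -/
theorem ofa (hOd : OdtS) (hOn : On1S) (hOt : On2S) (hNu : OnuS) (hBg : BgrS) (hQs : QsgS)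
    (hNd : Nd3S) (hMm : MmulS) (hFj : FjtS) (hNr : Nr3S) (hNb : NbzS) (hFD : FDS) : OfaS := by
  intro P L _ _ _ _ _ phi D S q f e a j W hS hR hu hdf
  obtain ⟨-, ha2, hlt⟩ := ko_nums W
  exact of1_core hOd hOn hOt hNu hBg hQs hNd hMm hFj hNr hNb hFD phi D S q f e a j W.min.fp hS hR
    ha2 hu W.j2 W.rk W.ih hdf hlt

end Pool.Agent.B5.OFH29
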