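import Pool.Agent.Lib.MP_b5021c_nt.KO.H67.O2
import Pool.Agent.Lib.MP_b5021c_nt.OF.H29.Of2
import Pool.Agent.Lib.MP_b5021c_nt.KO.H29.Ofa

/-!
# Board b5, ALL `θ`, K ODD, row KO_OFB
-/

namespace Pool.Agent.B5.OFH29

open scoped LaurentPolynomial
open Polynomial Pool.Agent.B5
open Pool.Agent.B5.KE
open Pool.Agent.B5.Nr.Sch (Loc)

/-- Row KO_OFB. -/
theorem ofb (hOd : OdtS) (hOn : On1S) (hNu : OndS) (hRe : RecS) (hF3c : Fc3S) (hF4c : Fc4S)
    (hNw : NdwS) (hBg : BgrS) (hQs : QsgS) (hNd : Nd3S) (hMm : MmulS) (hNr : Nr3S) (hNb : NbzS)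
    (hMc : McoS) (hF3 : F3S) (hMV : MVS) (hE1 : E1S) (hPc : PCZS) (hClp : ClpS) (hFD : FDS)
    (hI2 : Io2S) (hMfc : MfcS) (hCa : Ca5S) (hGlc : GlcS) (hFou : FouS) (hDti : DtiS) : OfbS := by
  intro P L _ _ _ _ _ phi D q f a j eta g C W
  obtain ⟨ha0, ha2, hlt⟩ := ko_nums W.ko
  have fp := W.ko.min.fp
  have hD := fp.dd
  have hrk := W.ko.rk
  have hj := W.ko.j2
  have h2 : 2 ≤ Module.finrank ℤ L := by omega
  by_contra hne
  have hu : 2 ≤ f.coeff 0 := by
    obtain ⟨S, hS⟩ := W.kc.ne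
    obtain ⟨e, -, hR⟩ := W.rn S hS
    have h3 := hR.u
    omega
  -- at every ray of `C`: no small factor, a big factor
  have key : ∀ S ∈ C, ∀ e : (RO ℤ)ˣ, eta S = ld e 1 → RN D S q f e a →
      ∀ (i0 : P) (h : co phi i0 S = 1) (c : RO ℤ) (n : ℕ)
        (G : Fin n → AO ℤ (Ker (co phi i0))), FD phi D S i0 (ld e 1) h c n G →
        snp phi S i0 G = ∅ ∧ big G ≠ ∅ := by
    intro S hS e he hR i0 h c n G fd
    have hno : ¬ ((snp phi S i0 G).Nonempty ∨ ∀ i, ¬ 1 < M ((G i).coeff 0)) := by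
      intro hsm
      refine of2_core hOd hOn hNu hRe hF3c hF4c hNw hBg hQs hNd hMm hNr hNb hMc hF3 phi D S q f e
        a j g fp hR ha2 hu hj hrk W.ko.ih W.kc.g1 ?_ ?_ ?_ ?_ fd hsm hlt
      · intro i1 h1
        have h3 := W.kc.dr S hS i1 h1
        rw [he] at h3
        exact h3
      · obtain ⟨S1, -, hM⟩ := W.kc.ex S hS
        rw [he] at hM
        exact ⟨S1, _, hM⟩
      · intro hg2
        obtain ⟨S1, -, S2, -, hM1, hM2, h3, h4⟩ := W.kc.two hg2 S hS
        rw [he] at hM1 hM2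
        exact ⟨S1, S2, _, _, hM1, hM2, h3, h4⟩
      · intro R hRR hR2
        have h3 := (W.kc.mtl S hS R hRR (by rw [he]; exact hR2)).2
        rw [he] at h3
        exact ⟨_, h3⟩
    push Not at hno
    obtain ⟨h3, i, hi⟩ := hno
    refine ⟨h3, ?_⟩
    intro h4
    have h5 : i ∈ big G := by
      unfold big
      classical
      exact Finset.mem_filter.mpr ⟨Finset.mem_univ i, hi⟩
    rw [h4] at h5
    exact absurd h5 (Finset.notMem_empty i)
  have hA : ASet phi D eta g C := by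
    refine ⟨W.kc.ray, ?_, ?_, W.kc.us, W.kc.mtl⟩
    · intro T hT
      obtain ⟨e, he, hR⟩ := W.rn T hT
      rw [he]
      exact V0_ne hR (k := 1) (le_refl 1)
    · intro T hT i0 h c n G fd i
      obtain ⟨e, he, hR⟩ := W.rn T hT
      rw [he] at fd
      exact all_big hClp fp fd (key T hT e he hR i0 h c n G fd).1 i
  have hg : g = 1 ∨ g = 2 := by
    have h3 := hGlc ℤ P L phi D eta g a⁻¹ C W.ko.min h2 hA W.kc.ne
    have h4 := W.kc.g1
    omega
  obtain ⟨S, hS⟩ := W.kc.ne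
  obtain ⟨e, he, hR⟩ := W.rn S hS
  have hray := W.kc.ray S hS
  obtain ⟨S1, -, hM⟩ := W.kc.ex S hS
  rw [he] at hM
  obtain ⟨i0, h⟩ := exists_port hD hray
  obtain ⟨c, n, G, fd⟩ := hFD ℤ P L phi D S i0 (ld e 1) h
    ⟨hD, h2, hray, h, V0_ne hR (k := 1) (le_refl 1)⟩
  obtain ⟨hs, hbig⟩ := key S hS e he hR i0 h c n G fd
  have hzero := zero_B hMV hMm hR fd hbig
  have hl := lob hPc hR.loc hR.u hR.ne (k := 1) (le_refl 1)
  rw [pow_one] at hl
  rcases hl with h3 | ⟨b, hab, hb1, hb⟩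
  · obtain ⟨b, hb1, hb2⟩ := hzero
    exact h3 b hb1 hb2
  · have hb0 : 0 < b := lt_trans ha0 hab
    have h4 := KO67.thB hE1 hMV hMm hClp hFou hDti W hA hg hS he hR fd hs hb0 hb1 hb
    have ha2' : a < 1 / 2 := by
      have h5 := W.ko.mu
      have h6 : (2 : ℝ) ≤ j := by exact_mod_cast hj
      have h7 : 2 < a⁻¹ := by linarith
      have h8 := mul_lt_mul_of_pos_right h7 ha0
      rw [inv_mul_cancel₀ ha0.ne'] at h8
      linarith
    have h5 := hI2 q f a hR.loc (KO67.cardi hMfc hCa hD h2 hR hM) hu ha2'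
    have hp0 : 0 < a / (1 - a) := div_pos ha0 (by linarith)
    have hp1 : a / (1 - a) < 1 := by
      rw [div_lt_one (by linarith)]
      linarith
    have hbp : b < a / (1 - a) := by
      rw [lt_div_iff₀ (by linarith)]
      have h6 : b * (j : ℝ) ≤ 1 := by
        have := mul_le_mul_of_nonneg_left h4 hb0.le
        rwa [mul_inv_cancel₀ hb0.ne'] at this
      have h7 := W.ko.lt
      have hj' : (2 : ℝ) ≤ j := by exact_mod_cast hj
      have h8 : b * (1 - a) < b * (j * a) := mul_lt_mul_of_pos_left (by linarith) hb0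
      have h9 : b * (j * a) ≤ a := by nlinarith
      linarith
    have h6 := sgn (k := 1) (le_refl 1) hR.loc.q0 hb0 (by rw [pow_one]; exact hb) hbp.le hp1
    rw [pow_one] at h6
    refine KO67.sgn_ne hR.loc.q0 hbp hp0 hp1 hb ?_
    refine le_antisymm h6 ?_
    rw [map_add, map_mul, aeval_X]
    exact h5

end Pool.Agent.B5.OFH29
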