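import Pool.Agent.Lib.MP_b5021c_nt.KO.H40.G4
import Pool.Agent.Lib.MP_b5021c_nt.KO.H67.Imd
import Pool.Agent.Lib.MP_b5021c_nt.KO.H96.Red2

/-!
# MP_b5021c_nt, all `θ`, K odd, (O4), ALPHA, row R2 (DBL): `V''` is one factor

* `dbl` : a mutual pair at the B-loads, `V''` drop free, a ray of `V''` with unit lead.
* `alp_coe`, `alp_co2` : the coefficient of `V''` at a neutral ray.
* `alp_dbl` : two neutral cycles, `gR = 0` or of order different from one.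
-/

set_option linter.unusedSectionVars false

namespace Pool.Agent.B5.KO29

open scoped LaurentPolynomial
open Polynomial
open Pool.Agent.B5.KE
open Pool.Agent.B5.Nr.Sch
open Pool.Agent.B5.Nr (TrezS)
open Pool.Agent.B5.H61 (CuspS)
open Pool.Agent.B5.H40 (uT)
open Pool.Agent.B5.KV67 (TT1 tA_val)
open Pool.Agent.B5.KO67 (upper aset ko_num double2 loadB_j psd)
open Pool.Agent.B5.KO.H96 (Alp)

section

variable {P L : Type} [Fintype P] [DecidableEq P] [AddCommGroup L] [Module.Free ℤ L]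
  [Module.Finite ℤ L] {phi : L →+ (P → ℤ)} {D : AO ℤ L}

/-- `V''` is one factor, if it is drop free and has a ray with unit lead. -/
theorem dbl (hMV : MVS) (hMm : MmulS) (hE1 : E1S) (hE2 : E2S) (hPc : PCZS)
    (hClp : ClpS) (hC0 : Coeff0S) (hG0 : G0S) (hI1 : Inj1S) (hRk : RkS) (hFD : FDS)
    (hWW : WWfS) (hRF : RayFacS) (hMug : MugS) (hMco : McoS) (hCu : CuspS) (hSf : SfzS)
    (hTr : TrezS) (hTsa : TsaS) (hI3 : Io3S) (hMfc : MfcS) (hCa : Ca5S) (hGlc : GlcS)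
    (hFou : FouS) (hDti : DtiS) (hRn : RnkS) (hO5 : H67.O5aS) {q f : ℤ[X]} {a : ℝ} {j : ℕ}
    {eta : L → (RO ℤ)ˣ} {C : Set L} (W : KcB phi D q f a j eta 1 C) (hu : f.coeff 0 = 1)
    (hn : f.coeff 1 - q.coeff 1 = j + 1) {S S1 : L} (hS : S ∈ C)
    (hM : Mut D S S1 (eta S) (eta S1)) (Y : Dp phi S S1)
    (hdf : ∀ nu, Kil phi D S S1 (eta S * tA) (eta S1 * tC) nu → nu = 0) {x : Ker Y.k1}
    (hx : Ray (dc Y (eta S * tA) (eta S1 * tC) D) x) {p : ℤ[X]} (hp : p.coeff 0 = 1)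
    {e2 : (RO ℤ)ˣ}
    (hxp : (e2 : RO ℤ) * (dc Y (eta S * tA) (eta S1 * tC) D).coeff x = toLaurent p) :
    ∃ (c : RO ℤ) (H : AO ℤ (Ker Y.k1)) (E : ℤ[X]), f - q = X * E ∧ E.coeff 0 = j + 1 ∧
      ClassV 1 c ∧ dc Y (eta S * tA) (eta S1 * tC) D = cst c * H ∧ DD (psd Y) H ∧
      ClassV (j : ℝ) (H.coeff 0) ∧ Ray H x ∧
      c * H.coeff 0 = -toLaurent (X * (E - (1 + X) * f)) ∧
      (e2 : RO ℤ) * (c * H.coeff x) = toLaurent p ∧
      Module.finrank ℤ (Ker Y.k1) + 1 = 2 * j := by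
  have fp := W.ko.min.fp
  have hD := fp.dd
  have hj := W.ko.j2
  have hrk := W.ko.rk
  have h2 : 2 ≤ Module.finrank ℤ L := by omega
  obtain ⟨e, he, hRN⟩ := W.rn S hS
  have hM' : Mut D S S1 (ld e 1) (eta S1) := by
    rw [← he]
    exact hM
  obtain ⟨-, hzero, -⟩ := upper hMV hMm hE1 hPc hClp hFD hSf hI3 hMfc hCa hGlc hFou hDti W hu
    hS he hRN
  have hcusp : ∀ z : ℂ, ‖z‖ = 1 → (aeval z (q + X * f) : ℂ) ≠ 0 := fun z hz =>
    cusp_m1 hCu hD h2 hRN hM' hzero hz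
  obtain ⟨E, hE, hE0, hEpos, hEz⟩ := typa hRN.loc hu hRN.ne
  rw [hn] at hE0
  have hEm : (aeval (-1 : ℂ) E : ℂ) ≠ 0 := by
    intro h3
    apply hcusp (-1) (by simp)
    have h5 := congrArg (fun p : ℤ[X] => (aeval (-1 : ℂ) p : ℂ)) hE
    simp only [map_sub, map_mul, aeval_X, h3, mul_zero] at h5
    rw [map_add, map_mul, aeval_X]
    linear_combination -h5
  have hld : dc Y (ld e 1 * kap) (eta S1 * uT (1 : ℤˣ) 1) D =
      dc Y (eta S * tA) (eta S1 * tC) D := by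
    rw [he]
    rfl
  have hfull : rk (supp (dc Y (ld e 1 * kap) (eta S1 * uT (1 : ℤˣ) 1) D)) + 2 =
      Module.finrank ℤ L := by
    rw [hld]
    exact (hRn ℤ P L phi D _ _ _ _ hD.inj hD.bin hM Y _ _).mpr hdf
  rw [← hld] at hx hxp ⊢
  obtain ⟨c, H, hc, hdc, hDH, hVH, hrH, hH0, hHx, hfr⟩ := double2 hMm hMV hE1 hE2 hPc hClp hC0
    hG0 hI1 hRk hFD hWW hRF hMug hMco hTr hTsa hO5 W hu hn hS he hRN hM' hE hEz hEm Y hfull x
    hx hp hxp
  exact ⟨c, H, E, hE, hE0, hc, hdc, hDH, hVH, hrH, hH0, hHx, hfr⟩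

/-- The products of a neutral ray with two neighbours of a cycle. -/
theorem nt_pair (hF1 : F1S) (hD : DD phi D) {eta : L → (RO ℤ)ˣ} {k : ℕ}
    {Z : ZMod (k + 3) → L} {mu : ZMod (k + 3) → L →+ ℤ} (h : Cyc phi D eta k Z mu)
    (i : ZMod (k + 3)) {R : L} (n0 : mu i R = 0) (n1 : mu (i + 1) R = 0)
    (d0 : ∀ p, phi (Z i) p = 0 ∨ phi R p = 0) (d1 : ∀ p, phi (Z (i + 1)) p = 0 ∨ phi R p = 0) :
    (eta (Z i) : RO ℤ) * D.coeff (R + Z i) =
        (eta (Z (i + 1)) : RO ℤ) * D.coeff (R + Z (i + 1)) ∧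
      (eta (Z i) : RO ℤ) * (eta (Z (i + 1)) : RO ℤ) * D.coeff (R + Z i + Z (i + 1)) =
        -((eta (Z i) : RO ℤ) * D.coeff (R + Z i)) := by
  have dd : ∀ p, phi (Z i) p = 0 ∨ phi (Z (i + 1)) p = 0 := h.dis i (i + 1) (ne_succ i)
  have k0 := hF1 ℤ P L phi D (Z i) (eta (Z i)) hD.inj hD.bin
    (hD.bin _ (h.mtl i).r0.1) (h.mtl i).r0.2.1 (R + Z (i + 1)) (by
      intro hU
      have := (h.ker i _).1 hU
      rw [map_add, n0, h.nxt i] at this
      omega)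
  have k1 := hF1 ℤ P L phi D (Z (i + 1)) (eta (Z (i + 1))) hD.inj hD.bin
    (hD.bin _ (h.mtl i).r1.1) (h.mtl i).r1.2.1 (R + Z i) (by
      intro hU
      have := (h.ker (i + 1) _).1 hU
      have h3 := h.prv (i + 1)
      rw [add_sub_cancel_right] at h3
      rw [map_add, n1, h3] at this
      omega)
  have e0 := k0.2 (fun p => by
    rcases dd p with h3 | h3
    · exact Or.inr h3
    · rcases d0 p with h4 | h4
      · exact Or.inr h4
      · left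
        rw [map_add, Pi.add_apply, h3, h4, add_zero])
  have e1 := k1.2 (fun p => by
    rcases dd p with h3 | h3
    · rcases d1 p with h4 | h4
      · exact Or.inr h4
      · left
        rw [map_add, Pi.add_apply, h3, h4, add_zero]
    · exact Or.inr h3)
  rw [show R + Z (i + 1) + Z i = R + Z i + Z (i + 1) by abel] at e0
  constructor
  · linear_combination (eta (Z i) : RO ℤ) * e1 - (eta (Z (i + 1)) : RO ℤ) * e0
  · linear_combination (eta (Z i) : RO ℤ) * e1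

/-- The coefficient of `V''` at a neutral ray. -/
theorem nt_val (hF1 : F1S) (hD : DD phi D) {eta : L → (RO ℤ)ˣ} {k : ℕ}
    {Z : ZMod (k + 3) → L} {mu : ZMod (k + 3) → L →+ ℤ} (h : Cyc phi D eta k Z mu)
    (i : ZMod (k + 3)) {R : L} (n0 : mu i R = 0) (n1 : mu (i + 1) R = 0)
    (d0 : ∀ p, phi (Z i) p = 0 ∨ phi R p = 0) (d1 : ∀ p, phi (Z (i + 1)) p = 0 ∨ phi R p = 0)
    (Y : Dp phi (Z i) (Z (i + 1))) {x : Ker Y.k1} (hx : ((x : Ker (co phi Y.i0)) : L) = R) :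
    (dc Y (eta (Z i) * tA) (eta (Z (i + 1)) * tC) D).coeff x =
      D.coeff R + (1 + LaurentPolynomial.T 1 - LaurentPolynomial.T (-1)) *
        ((eta (Z i) : RO ℤ) * D.coeff (R + Z i)) := by
  have dd : ∀ p, phi (Z i) p = 0 ∨ phi (Z (i + 1)) p = 0 := h.dis i (i + 1) (ne_succ i)
  obtain ⟨h1, h2⟩ := nt_pair hF1 hD h i n0 n1 d0 d1
  rw [E4.dc_coeff hD.bin dd, H47.dco, hx, Units.val_mul, Units.val_mul, tA_val]
  have h3 : ((tC : (RO ℤ)ˣ) : RO ℤ) = LaurentPolynomial.T 1 := KO.H40.tC_val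
  rw [h3]
  linear_combination (-(LaurentPolynomial.T 1 : RO ℤ)) * h1 -
    (LaurentPolynomial.T (-1) * LaurentPolynomial.T 1 : RO ℤ) * h2 +
    ((eta (Z i) : RO ℤ) * D.coeff (R + Z i)) * TT1

end

section

variable {P L : Type} [Fintype P] [DecidableEq P] [AddCommGroup L] [Module.Free ℤ L]
  [Module.Finite ℤ L] {phi : L →+ (P → ℤ)} {D : AO ℤ L} {q f f' : ℤ[X]} {a : ℝ} {j : ℕ}
  {eta : L → (RO ℤ)ˣ} {k k' : ℕ} {Z : ZMod (k + 3) → L} {mu : ZMod (k + 3) → L →+ ℤ}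
  {Z' : ZMod (k' + 3) → L} {mu' : ZMod (k' + 3) → L →+ ℤ}

/-- The C'-coefficient of the closing `y = -1/z` of `D`, up to the sign. -/
noncomputable def gR (D : AO ℤ L) (eta : L → (RO ℤ)ˣ) (f' : ℤ[X]) (S R : L) : RO ℤ :=
  toLaurent f' - LaurentPolynomial.T (-2) * ((eta S : RO ℤ) * ((eta R : RO ℤ) * D.coeff (S + R)))

/-- The mirror image of two cycles. -/
theorem alp_rev (A : Alp phi D q f f' a j eta k k' Z mu Z' mu') :
    Alp phi D q f f' a j eta k k' (fun i => Z (1 - i)) (fun i => -mu (1 - i)) Z' mu' where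
  w := by
    have h1 : Set.range (fun i => Z (1 - i)) = Set.range Z := by
      ext x
      constructor
      · rintro ⟨i, rfl⟩
        exact ⟨1 - i, rfl⟩
      · rintro ⟨i, rfl⟩
        exact ⟨1 - i, by simp⟩
    rw [h1]
    exact A.w
  w' := A.w'
  u := A.u
  u' := A.u'
  n := A.n
  n' := A.n'
  c := KO.H40.cyc_rev A.c
  c' := A.c'
  ne := fun i l => A.ne _ l
  z := fun i l => by rw [AddMonoidHom.neg_apply, A.z, neg_zero]
  z' := fun i l => A.z' _ l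
  nu := fun i l e => A.nu _ l e
  nu' := fun i l e => A.nu' _ l e

/-- `z D_(Z' l) = f'`. -/
theorem alp_rf (A : Alp phi D q f f' a j eta k k' Z mu Z' mu') (l : ZMod (k' + 3)) :
    (eta (Z' l) : RO ℤ) * D.coeff (Z' l) = toLaurent (X * f') := by
  obtain ⟨e, he, hR⟩ := A.w'.rn (Z' l) ⟨l, rfl⟩
  have h3 := ld_S hR 1
  rw [pow_one] at h3
  rw [he]
  exact h3

/-- The coefficient of `V''` at a ray of the other cycle: `z ((z + z²) f' + w gR)`. -/
theorem alp_val (hF1 : F1S) (A : Alp phi D q f f' a j eta k k' Z mu Z' mu') (i : ZMod (k + 3))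
    (l : ZMod (k' + 3)) (d0 : ∀ p, phi (Z i) p = 0 ∨ phi (Z' l) p = 0)
    (d1 : ∀ p, phi (Z (i + 1)) p = 0 ∨ phi (Z' l) p = 0) (Y : Dp phi (Z i) (Z (i + 1)))
    {x : Ker Y.k1} (hx : ((x : Ker (co phi Y.i0)) : L) = Z' l) :
    (eta (Z' l) : RO ℤ) * (dc Y (eta (Z i) * tA) (eta (Z (i + 1)) * tC) D).coeff x =
      LaurentPolynomial.T 1 * (toLaurent (X * (1 + X) * f') +
        toLaurent (1 - X - X ^ 2) * gR D eta f' (Z i) (Z' l)) := by
  have hD := A.w.ko.min.fp.dd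
  rw [nt_val hF1 hD A.c i (A.z i l) (A.z (i + 1) l) d0 d1 Y hx]
  have h1 := alp_rf A l
  have h2 : D.coeff (Z' l + Z i) = D.coeff (Z i + Z' l) := by rw [add_comm]
  rw [h2]
  unfold gR
  have e1 : (LaurentPolynomial.T 1 * LaurentPolynomial.T (-2) : RO ℤ) =
      LaurentPolynomial.T (-1) := by
    rw [← LaurentPolynomial.T_add]
    norm_num
  simp only [map_mul, map_add, map_sub, map_one, map_pow, toLaurent_X] at h1 ⊢
  have e2 : (LaurentPolynomial.T 1 * LaurentPolynomial.T (-1) : RO ℤ) = 1 := by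
    rw [← LaurentPolynomial.T_add, ← LaurentPolynomial.T_zero]
    norm_num
  linear_combination h1 + ((eta (Z i) : RO ℤ) * ((eta (Z' l) : RO ℤ) *
    D.coeff (Z i + Z' l))) * (1 - LaurentPolynomial.T 1 - LaurentPolynomial.T 1 ^ 2) * e1 -
    ((eta (Z i) : RO ℤ) * ((eta (Z' l) : RO ℤ) *
    D.coeff (Z i + Z' l))) * (1 + LaurentPolynomial.T 1) * e2

/-- The lead of the coefficient of `V''` at a ray of the other cycle. -/
theorem alp_lead (hF1 : F1S) (A : Alp phi D q f f' a j eta k k' Z mu Z' mu')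
    (i : ZMod (k + 3)) (l : ZMod (k' + 3)) (d0 : ∀ p, phi (Z i) p = 0 ∨ phi (Z' l) p = 0)
    (d1 : ∀ p, phi (Z (i + 1)) p = 0 ∨ phi (Z' l) p = 0) (Y : Dp phi (Z i) (Z (i + 1)))
    {x : Ker Y.k1} (hx : ((x : Ker (co phi Y.i0)) : L) = Z' l)
    (hg : gR D eta f' (Z i) (Z' l) = 0 ∨ ∃ (s : ℤˣ) (m : ℤ) (g : ℤ[X]), g.coeff 0 = 1 ∧
      m ≠ 1 ∧ gR D eta f' (Z i) (Z' l) =
        LaurentPolynomial.C (s : ℤ) * LaurentPolynomial.T m * toLaurent g) :
    ∃ (n : ℤ) (s : ℤˣ) (p : ℤ[X]), p.coeff 0 = 1 ∧ (eta (Z' l) : RO ℤ) *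
      (dc Y (eta (Z i) * tA) (eta (Z (i + 1)) * tC) D).coeff x =
        LaurentPolynomial.C (s : ℤ) * LaurentPolynomial.T n * toLaurent p := by
  rw [alp_val hF1 A i l d0 d1 Y hx]
  rcases hg with hg | ⟨s, m, g, hg0, hm, hg⟩
  · refine ⟨2, 1, (1 + X) * f', by rw [mul_coeff_zero, A.u']; simp, ?_⟩
    rw [hg, mul_zero, add_zero, Units.val_one, map_one, one_mul,
      show X * (1 + X) * f' = X * ((1 + X) * f') by ring, map_mul toLaurent X, toLaurent_X,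
      ← mul_assoc, ← LaurentPolynomial.T_add]
    norm_num
  · rw [hg]
    rcases lt_or_gt_of_ne hm with h1 | h1
    · obtain ⟨b, hb⟩ := Int.eq_ofNat_of_zero_le (show 0 ≤ -m by omega)
      refine ⟨1 + m, s, (1 - X - X ^ 2) * g + C (s : ℤ) * X ^ (b + 1) * ((1 + X) * f'), ?_, ?_⟩
      · rw [coeff_add, mul_coeff_zero, hg0, mul_coeff_zero, mul_coeff_zero]
        simp
      · have e1 : (LaurentPolynomial.T m * LaurentPolynomial.T 1 ^ b : RO ℤ) = 1 := by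
          rw [LaurentPolynomial.T_pow, ← LaurentPolynomial.T_add, ← LaurentPolynomial.T_zero]
          congr 1
          have : ((b : ℕ) : ℤ) = -m := hb.symm
          rw [mul_one, this]
          ring
        have e2 : (LaurentPolynomial.C (s : ℤ) * LaurentPolynomial.C (s : ℤ) : RO ℤ) = 1 := by
          rw [← map_mul, ← Units.val_mul, Int.units_mul_self, Units.val_one, map_one]
        rw [LaurentPolynomial.T_add]
        simp only [map_mul, map_add, map_sub, map_one, map_pow, toLaurent_X, toLaurent_C]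
        linear_combination (-(LaurentPolynomial.T 1 ^ 2 * (1 + LaurentPolynomial.T 1) *
          toLaurent f') : RO ℤ) * (LaurentPolynomial.C (s : ℤ) * LaurentPolynomial.C (s : ℤ) * e1 +
            e2)
    · obtain ⟨b, hb⟩ := Int.eq_ofNat_of_zero_le (show 0 ≤ m - 2 by omega)
      refine ⟨2, 1, (1 + X) * f' + C (s : ℤ) * X ^ (b + 1) * ((1 - X - X ^ 2) * g), ?_, ?_⟩
      · rw [coeff_add, mul_coeff_zero, A.u', mul_coeff_zero, mul_coeff_zero]
        simp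
      · have e1 : (LaurentPolynomial.T m : RO ℤ) =
            LaurentPolynomial.T 1 ^ b * LaurentPolynomial.T 1 ^ 2 := by
          rw [LaurentPolynomial.T_pow, LaurentPolynomial.T_pow, ← LaurentPolynomial.T_add]
          congr 1
          have : ((b : ℕ) : ℤ) = m - 2 := hb.symm
          rw [mul_one, this]
          push_cast
          ring
        have e2 : (LaurentPolynomial.T 2 : RO ℤ) = LaurentPolynomial.T 1 ^ 2 := by
          rw [LaurentPolynomial.T_pow]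
          norm_num
        rw [e1, e2, Units.val_one]
        simp only [map_mul, map_add, map_sub, map_one, map_pow, toLaurent_X, toLaurent_C]
        ring

/-- (R2, DBL) two neutral cycles without common ports, `V''` of the first one drop free, `gR = 0` or
of order different from one: `V''` is one factor. -/
theorem alp_dbl (hMV : MVS) (hMm : MmulS) (hE1 : E1S) (hE2 : E2S) (hPc : PCZS)
    (hClp : ClpS) (hC0 : Coeff0S) (hG0 : G0S) (hI1 : Inj1S) (hRk : RkS) (hFD : FDS)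
    (hWW : WWfS) (hRF : RayFacS) (hMug : MugS) (hMco : McoS) (hCu : CuspS) (hSf : SfzS)
    (hTr : TrezS) (hTsa : TsaS) (hI3 : Io3S) (hMfc : MfcS) (hCa : Ca5S) (hGlc : GlcS)
    (hFou : FouS) (hDti : DtiS) (hRn : RnkS) (hO5 : H67.O5aS) (hF1 : F1S) (hRy : RaySpanS)
    (A : Alp phi D q f f' a j eta k k' Z mu Z' mu') (i : ZMod (k + 3)) (l : ZMod (k' + 3))
    (d0 : ∀ p, phi (Z i) p = 0 ∨ phi (Z' l) p = 0)
    (d1 : ∀ p, phi (Z (i + 1)) p = 0 ∨ phi (Z' l) p = 0)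
    (hdf : ∀ nu, Kil phi D (Z i) (Z (i + 1)) (eta (Z i) * tA) (eta (Z (i + 1)) * tC) nu →
      nu = 0)
    (hg : gR D eta f' (Z i) (Z' l) = 0 ∨ ∃ (s : ℤˣ) (m : ℤ) (g : ℤ[X]), g.coeff 0 = 1 ∧
      m ≠ 1 ∧ gR D eta f' (Z i) (Z' l) =
        LaurentPolynomial.C (s : ℤ) * LaurentPolynomial.T m * toLaurent g)
    (Y : Dp phi (Z i) (Z (i + 1))) :
    ∃ (c : RO ℤ) (H : AO ℤ (Ker Y.k1)) (E : ℤ[X]), f - q = X * E ∧ E.coeff 0 = j + 1 ∧
      ClassV 1 c ∧ dc Y (eta (Z i) * tA) (eta (Z (i + 1)) * tC) D = cst c * H ∧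
      DD (psd Y) H ∧ ClassV (j : ℝ) (H.coeff 0) ∧
      c * H.coeff 0 = -toLaurent (X * (E - (1 + X) * f)) ∧
      Module.finrank ℤ (Ker Y.k1) + 1 = 2 * j := by
  have hD := A.w.ko.min.fp.dd
  have hj := A.w.ko.j2
  have hrk := A.w.ko.rk
  have h2 : 2 ≤ Module.finrank ℤ L := by omega
  have p0 : phi (Z i) Y.i0 = 1 := Y.h0
  have p1 : phi (Z (i + 1)) Y.i1 = 1 := by
    have h1 := Y.hk Y.T
    rw [Y.h1, Y.eT] at h1
    exact h1.symm
  have r0 : phi (Z' l) Y.i0 = 0 := (d0 Y.i0).resolve_left (by omega)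
  have r1 : phi (Z' l) Y.i1 = 0 := (d1 Y.i1).resolve_left (by omega)
  obtain ⟨x, hx⟩ : ∃ x : Ker Y.k1, ((x : Ker (co phi Y.i0)) : L) = Z' l :=
    ⟨⟨⟨Z' l, r0⟩, by
      change Y.k1 ⟨Z' l, r0⟩ = 0
      rw [Y.hk]
      exact r1⟩, rfl⟩
  obtain ⟨n, s, p, hp, hxp⟩ := alp_lead hF1 A i l d0 d1 Y hx hg
  have hxp' : ((eta (Z' l) * uT s (-n) : (RO ℤ)ˣ) : RO ℤ) *
      (dc Y (eta (Z i) * tA) (eta (Z (i + 1)) * tC) D).coeff x = toLaurent p := by
    have e1 : (LaurentPolynomial.T (-n) * LaurentPolynomial.T n : RO ℤ) = 1 := by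
      rw [← LaurentPolynomial.T_add, neg_add_cancel, LaurentPolynomial.T_zero]
    have e2 : (LaurentPolynomial.C (s : ℤ) * LaurentPolynomial.C (s : ℤ) : RO ℤ) = 1 := by
      rw [← map_mul, ← Units.val_mul, Int.units_mul_self, Units.val_one, map_one]
    rw [Units.val_mul, H40.uT_val]
    linear_combination (LaurentPolynomial.C (s : ℤ) * LaurentPolynomial.T (-n) : RO ℤ) * hxp +
      (LaurentPolynomial.C (s : ℤ) * LaurentPolynomial.C (s : ℤ) * toLaurent p : RO ℤ) * e1 +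
      (toLaurent p : RO ℤ) * e2
  have hne : (dc Y (eta (Z i) * tA) (eta (Z (i + 1)) * tC) D).coeff x ≠ 0 := by
    intro h0
    rw [h0, mul_zero] at hxp'
    have h3 : p = 0 := (map_eq_zero_iff _ Polynomial.toLaurent_injective).mp hxp'.symm
    rw [h3, coeff_zero] at hp
    exact zero_ne_one hp
  obtain ⟨-, hthin, -⟩ := hE2 ℤ P L phi D hD h2
  obtain ⟨lam0, hlam0, -⟩ := hD.st.2
  have hray := ray4 hRy hD.inj hD.bin ⟨lam0, hlam0⟩ hthin A.c i Y _ _ (A.c'.mtl l).r0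
    (fun n => A.ne n l) x hx hne
  obtain ⟨c, H, E, hE, hE0, hc, hdc, hDH, hVH, -, hH0, -, hfr⟩ := dbl hMV hMm hE1 hE2 hPc hClp
    hC0 hG0 hI1 hRk hFD hWW hRF hMug hMco hCu hSf hTr hTsa hI3 hMfc hCa hGlc hFou hDti hRn hO5
    A.w A.u A.n ⟨i, rfl⟩ (A.c.mtl i) Y hdf hray hp hxp'
  exact ⟨c, H, E, hE, hE0, hc, hdc, hDH, hVH, hH0, hfr⟩

end

end Pool.Agent.B5.KO29
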