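import Pool.Agent.Lib.MP_b5021c_nt.KO.H29.S5cA
import Pool.Agent.Lib.MP_b5021c_nt.KO.H40.PxD
import Pool.Agent.Lib.MP_b5021c_nt.KO.H40.Vcl
import Pool.Agent.Lib.MP_b5021c_nt.KO.H40.Kil
import Pool.Agent.Lib.MP_b5021c_nt.E.H78.Fcl
import Pool.Agent.Lib.MP_b5021c_nt.KE.H96.Step

/-!
# Board b5, K ODD, (O4), cycles of length at least five: row OC_S5C, the structure (helper29)
-/

set_option linter.unusedSectionVars false

namespace Pool.Agent.B5.OC29

open scoped LaurentPolynomial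
open Polynomial
open Pool.Agent.B5.KE
open Pool.Agent.B5.KO67
open Pool.Agent.B5.O1.H12
open Pool.Agent.B5.Nr.Sch (Loc)
open Pool.Agent.B5.H17 (wt vco_eq wt_of wt_zero)
open Pool.Agent.B5.KO.H40

/-! ## Restriction to a sublattice -/

theorem res_coeff {N : Type} [AddCommGroup N] (K : Submodule ℤ N) (G : AO ℤ N) (a : K) :
    (res K G).coeff a = G.coeff (a : N) := rfl

/-- The class sums of a restriction. -/
theorem vco_res {N : Type} [AddCommGroup N] [Module.Free ℤ N] [Module.Finite ℤ N]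
    (K : Submodule ℤ N) (G : AO ℤ N) (hG : ∀ a ∈ supp G, a ∈ K) (e : (RO ℤ)ˣ) {x : K}
    (hx : x ≠ 0) (a : K) : vco e x (res K G) a = vco e (x : N) G (a : N) := by
  classical
  have hx' : (x : N) ≠ 0 := fun h => hx (Subtype.ext h)
  have hwt : ∀ b : K, wt e x a b = wt e (x : N) (a : N) (b : N) := by
    intro b
    by_cases hb : ∃ k : ℤ, b = a + k • x
    · obtain ⟨k, rfl⟩ := hb
      have h1 : ((a + k • x : K) : N) = (a : N) + k • (x : N) := rfl
      rw [wt_of e hx, h1, wt_of e hx']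
    · rw [wt_zero e hb, wt_zero e]
      rintro ⟨k, hk⟩
      exact hb ⟨k, Subtype.ext hk⟩
  rw [vco_eq, vco_eq, Finsupp.sum, Finsupp.sum]
  refine Finset.sum_bij (fun b _ => (b : N)) ?_ ?_ ?_ ?_
  · intro b hb
    rw [Finsupp.mem_support_iff] at hb ⊢
    exact hb
  · intro b _ c _ hbc
    exact Subtype.ext hbc
  · intro b hb
    rw [Finsupp.mem_support_iff] at hb
    refine ⟨⟨b, hG b hb⟩, ?_, rfl⟩
    rw [Finsupp.mem_support_iff]
    exact hb
  · intro b _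
    rw [hwt]
    rfl

section

variable {P L : Type} [Fintype P] [DecidableEq P] [AddCommGroup L] [Module.Free ℤ L]
  [Module.Finite ℤ L] {phi : L →+ (P → ℤ)} {D : AO ℤ L}

/-- A functional which kills `w^R = e` kills `w^R = e` in the closing at `S`, restricted to `K`. -/
theorem ker_cl {S R : L} {i0 : P} (h0 : co phi i0 S = 1) {u e : (RO ℤ)ˣ} {nu : L →+ ℤ}
    (hk : ∀ a ∈ US e R D, nu a = 0) (n0 : nu S = 0) {K : Submodule ℤ (Ker (co phi i0))}
    (hK : ∀ a ∈ supp (cl (co phi i0) S h0 u D), a ∈ K) {x : K}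
    (hx : ((x : Ker (co phi i0)) : L) = R) (hR0 : R ≠ 0) :
    ∀ a ∈ US e x (res K (cl (co phi i0) S h0 u D)), nu ((a : Ker (co phi i0)) : L) = 0 := by
  have hRU : nu R = 0 := hk R (H47.S_mem e R D)
  have hx0 : x ≠ 0 := by
    rintro rfl
    exact hR0 hx.symm
  have hx1 : (x : Ker (co phi i0)) ≠ 0 := fun h => hx0 (Subtype.ext h)
  have key : ∀ a : K, vco e x (res K (cl (co phi i0) S h0 u D)) a ≠ 0 →
      nu ((a : Ker (co phi i0)) : L) = 0 := by
    intro a ha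
    rw [vco_res K _ hK e hx0] at ha
    obtain ⟨m, hm⟩ := vco_cl_ne (co phi i0) S h0 u e D hx1 _ ha
    rw [hx] at hm
    have h2 : nu (((a : Ker (co phi i0)) : L) + m • S) = 0 := by
      apply hk
      refine ⟨1, one_ne_zero, ?_⟩
      rw [one_smul]
      exact Submodule.subset_span (Or.inr hm)
    rw [map_add, map_zsmul, n0, smul_zero, add_zero] at h2
    exact h2
  intro a ha
  obtain ⟨n, hn, hm⟩ := ha
  have h1 : Submodule.span ℤ (insert x {a : K | vco e x (res K (cl (co phi i0) S h0 u D)) a ≠ 0}) ≤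
      LinearMap.ker ((nu.comp (incl (Ker (co phi i0)))).comp (incl K)).toIntLinearMap := by
    rw [Submodule.span_le]
    rintro y (rfl | hy)
    · change nu ((y : Ker (co phi i0)) : L) = 0
      rw [hx, hRU]
    · exact key y hy
  have h2 : nu (((n • a : K) : Ker (co phi i0)) : L) = 0 := h1 hm
  have h3 : (((n • a : K) : Ker (co phi i0)) : L) = n • ((a : Ker (co phi i0)) : L) := rfl
  rw [h3, map_zsmul, smul_eq_mul] at h2
  exact (mul_eq_zero.mp h2).resolve_left hn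

/-! ## Faces -/

/-- All coefficients on the face are binary. -/
theorem face_bin (hD : DD phi D) {X Y Q : L} (rX : Ray D X) (rY : Ray D Y)
    (dXY : ∀ i, phi X i = 0 ∨ phi Y i = 0) (dXQ : ∀ i, phi X i = 0 ∨ phi Q i = 0)
    (dYQ : ∀ i, phi Y i = 0 ∨ phi Q i = 0) {lam : L →+ ℤ}
    (hl : ∀ x ∈ supp D, 0 ≤ lam x ∧
      (lam x = 0 → ∃ a b c : ℤ, (c = 0 ∨ c = 1) ∧ x = a • X + b • Y + c • Q)) :
    ∀ x ∈ supp D, 0 ≤ lam x ∧ (lam x = 0 → ∃ a b c : ℤ, (a = 0 ∨ a = 1) ∧ (b = 0 ∨ b = 1) ∧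
      (c = 0 ∨ c = 1) ∧ x = a • X + b • Y + c • Q) := by
  intro x hx
  refine ⟨(hl x hx).1, fun h0 => ?_⟩
  obtain ⟨a, b, c, hc, habc⟩ := (hl x hx).2 h0
  obtain ⟨iX, hiX⟩ := exists_port hD rX
  obtain ⟨iY, hiY⟩ := exists_port hD rY
  have pX : phi X iX = 1 := hiX
  have pY : phi Y iY = 1 := hiY
  have dYX : ∀ i, phi Y i = 0 ∨ phi X i = 0 := fun i => (dXY i).symm
  have key : ∀ i, phi x i = a * phi X i + b * phi Y i + c * phi Q i := by
    intro i
    have h9 := congrFun (congrArg phi habc) i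
    simp only [map_zsmul, map_add, Pi.smul_apply, Pi.add_apply, smul_eq_mul] at h9
    exact h9
  have e1 := key iX
  rw [pX, port_zero dXY pX, port_zero dXQ pX, mul_one, mul_zero, mul_zero, add_zero,
    add_zero] at e1
  have e2 := key iY
  rw [pY, port_zero dYX pY, port_zero dYQ pY, mul_one, mul_zero, mul_zero, zero_add,
    add_zero] at e2
  refine ⟨a, b, c, ?_, ?_, hc, habc⟩
  · rw [← e1]; exact hD.bin x hx iX
  · rw [← e2]; exact hD.bin x hx iY

/-- The two-dimensional face inside the three-dimensional one. -/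
theorem face_two {X Y Q : L} {lam nu : L →+ ℤ} (lX : lam X = 0) (lY : lam Y = 0)
    (hl : ∀ x ∈ supp D, 0 ≤ lam x ∧ (lam x = 0 → ∃ a b c : ℤ, (a = 0 ∨ a = 1) ∧
      (b = 0 ∨ b = 1) ∧ (c = 0 ∨ c = 1) ∧ x = a • X + b • Y + c • Q))
    (nX : nu X = 0) (nY : nu Y = 0) (nQ : nu Q = 1) (hn : ∀ x ∈ supp D, -1 ≤ nu x) :
    ∃ la : L →+ ℤ, la X = 0 ∧ la Y = 0 ∧
      ∀ x ∈ supp D, x ≠ 0 → x ≠ X → x ≠ Y → x ≠ X + Y → 0 < la x := by
  refine ⟨(2 : ℤ) • lam + nu, ?_, ?_, ?_⟩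
  · simp only [AddMonoidHom.add_apply, AddMonoidHom.smul_apply, lX, nX, smul_zero, add_zero]
  · simp only [AddMonoidHom.add_apply, AddMonoidHom.smul_apply, lY, nY, smul_zero, add_zero]
  · intro x hx h0 hX hY hXY
    simp only [AddMonoidHom.add_apply, AddMonoidHom.smul_apply, smul_eq_mul]
    obtain ⟨h1, h2⟩ := hl x hx
    have h3 := hn x hx
    by_cases h4 : lam x = 0
    · obtain ⟨a, b, c, ha, hb, hc, habc⟩ := h2 h4
      have h5 : nu x = c := by
        rw [habc, map_add, map_add, map_zsmul, map_zsmul, map_zsmul, nX, nY, nQ, smul_zero,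
          smul_zero, zero_add, zero_add, smul_eq_mul, mul_one]
      rcases hc with hc | hc
      · exfalso
        rw [hc, zero_smul, add_zero] at habc
        rcases ha with ha | ha <;> rcases hb with hb | hb <;> subst ha <;> subst hb
        · exact h0 (by rw [habc, zero_smul, zero_smul, add_zero])
        · exact hY (by rw [habc, zero_smul, one_smul, zero_add])
        · exact hX (by rw [habc, zero_smul, one_smul, add_zero])
        · exact hXY (by rw [habc, one_smul, one_smul])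
      · omega
    · have : 1 ≤ lam x := by omega
      omega

/-- A ray of the closing, restricted to a sublattice. -/
theorem ray_res {N : Type} [AddCommGroup N] [Module.Free ℤ N] [Module.Finite ℤ N]
    {K : Submodule ℤ N} {G H : AO ℤ N} {x : K} (hx : Ray G (x : N)) (hs : supp H = supp G) :
    Ray (res K H) x := by
  obtain ⟨h1, h2, lam, h3, h4⟩ := hx
  refine ⟨?_, ?_, lam.comp (incl K), h3, ?_⟩
  · change (x : N) ∈ supp H
    rw [hs]
    exact h1
  · rintro rfl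
    exact h2 rfl
  · intro y hy hy0 hyx
    change 0 < lam (y : N)
    have h5 : (y : N) ∈ supp H := hy
    rw [hs] at h5
    exact h4 _ h5 (fun h => hy0 (Subtype.ext h)) (fun h => hyx (Subtype.ext h))

end

open Pool.Agent.B5.OC in
/-- ROW OC_S5C. -/
theorem s5c (hT : TsgS) (hNd : Nd3S) (hSm : SmallS)
    (hRF : RayFacS) (hG0 : G0S) (hC0 : Coeff0S) (hW : WWfS) (hE1 : E1S) (hMV : MVS)
    (hRkU : RkUSS) (hLmn : LMNS) (hMco : McoS) (hFD : FDS) (hMm : MmulS) (hRk : RkS)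
    (hEvz : EvzS) (hEv1 : BdV ℤ 1 1) (hFcl : FclS) (hU : UnitRS) (hM1 : M1S) (hE2 : E2S)
    (hRy : RaySpanS) (hFsp : FspS) (hPc : PCZS) (hSf : SfzS) (hClp : ClpS) : OC.S5cS := by
  classical
  intro P L _ _ _ _ _ phi D q f E γ a j eta C k Z mu H hk hA hγ
  have W := H.kb
  have fp := W.ko.min.fp
  have hD := fp.dd
  have hj := W.ko.j2
  have hrk := W.ko.rk
  have h2L : 2 ≤ Module.finrank ℤ L := by omega
  have hcy := H.cyc
  -- indices
  have n1 : (1 : ZMod (k + 3)) ≠ 0 := one_ne k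
  have n2 : (2 : ZMod (k + 3)) ≠ 0 := two_ne k
  have n3 : (3 : ZMod (k + 3)) ≠ 0 := three_ne (by omega)
  have n4 : (4 : ZMod (k + 3)) ≠ 0 := by
    intro h
    have h1 : ((4 : ℕ) : ZMod (k + 3)) = 0 := by exact_mod_cast h
    rw [ZMod.natCast_eq_zero_iff] at h1
    exact absurd (Nat.le_of_dvd (by norm_num) h1) (by omega)
  have m02 : mu 0 (Z 2) = 0 := cyc_mu hcy (fun h => n1 (by linear_combination h))
    (fun h => n3 (by linear_combination h))
  have m00 : mu 0 (Z 0) = 0 := cyc_mu hcy (fun h => n1 (by linear_combination -h))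
    (fun h => n1 (by linear_combination h))
  have mm2 : mu (-1) (Z 2) = 0 := cyc_mu hcy (fun h => n2 (by linear_combination h))
    (fun h => n4 (by linear_combination h))
  have mmm : mu (-1) (Z (-1)) = 0 := cyc_mu hcy (fun h => n1 (by linear_combination -h))
    (fun h => n1 (by linear_combination h))
  have mm0 : mu (-1) (Z 0) = 1 := by
    have h1 := hcy.nxt (-1)
    rwa [neg_add_cancel] at h1
  have m0m : mu 0 (Z (-1)) = -1 := by
    have h1 := hcy.prv 0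
    rwa [zero_sub] at h1
  have r : ∀ i, Ray D (Z i) := fun i => cyc_ray hcy i
  have d20 : ∀ p, phi (Z 2) p = 0 ∨ phi (Z 0) p = 0 := hcy.dis 2 0 n2
  have d2m : ∀ p, phi (Z 2) p = 0 ∨ phi (Z (-1)) p = 0 :=
    hcy.dis 2 (-1) (fun h => n3 (by linear_combination h))
  have d0m : ∀ p, phi (Z 0) p = 0 ∨ phi (Z (-1)) p = 0 :=
    hcy.dis 0 (-1) (fun h => n1 (by linear_combination h))
  -- the face of `Z 2`, `Z 0`, `Z (-1)`
  obtain ⟨lam, l0, lm, l2, hl⟩ := fun3 (nuA := -mu (-1)) (nuB := mu 0) (r 0) (r (-1)) (r 2)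
    (fun h => n2 (hcy.inj h).symm) (fun h => n3 (by linear_combination -(hcy.inj h)))
    (by rw [AddMonoidHom.neg_apply, mm0]) (by rw [AddMonoidHom.neg_apply, mmm, neg_zero])
    (by rw [AddMonoidHom.neg_apply, mm2, neg_zero])
    (fun T hT' hne => by
      rw [AddMonoidHom.neg_apply]
      by_cases h1 : T = Z (-1 - 1)
      · rw [h1, hcy.prv (-1)]
        norm_num
      · rw [hcy.oth (-1) T hT' (by rw [neg_add_cancel]; exact hne) h1, neg_zero])
    m0m m00 m02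
    (fun T hT' hne => by
      by_cases h1 : T = Z (0 + 1)
      · rw [h1, hcy.nxt 0]
        norm_num
      · rw [hcy.oth 0 T hT' h1 (by rw [zero_sub]; exact hne)])
  have hfb := face_bin hD (r 2) (r 0) d20 d2m d0m (face3 hRy hE2 hD h2L (r 2) (r 0) (r (-1)) d20
    d2m d0m l2 l0 lm (fun T hT' h3 h4 h5 => hl T hT' h4 h5 h3))
  obtain ⟨la, la2, la0, hla⟩ := face_two (nu := -mu 0) l2 l0 hfb
    (by rw [AddMonoidHom.neg_apply, m02, neg_zero]) (by rw [AddMonoidHom.neg_apply, m00, neg_zero])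
    (by rw [AddMonoidHom.neg_apply, m0m, neg_neg]) (fun x hx => by
      rw [AddMonoidHom.neg_apply]
      rcases hcy.val 0 x hx with h | h | h <;> rw [h] <;> norm_num)
  obtain ⟨lb, lb2, lbm, hlb⟩ := face_two (Q := Z 0) (nu := mu (-1)) l2 lm
    (fun x hx => ⟨(hfb x hx).1, fun h => by
      obtain ⟨a1, b1, c1, h1, h2, h3, h4⟩ := (hfb x hx).2 h
      exact ⟨a1, c1, b1, h1, h3, h2, by rw [h4]; abel⟩⟩) mm2 mmm mm0 (fun x hx => by
      rcases hcy.val (-1) x hx with h | h | h <;> rw [h] <;> norm_num)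
  -- the closing at `Z 2`
  obtain ⟨i2, h2⟩ := exists_port hD (r 2)
  have p2 : phi (Z 2) i2 = 1 := h2
  have p0 : phi (Z 0) i2 = 0 := port_zero d20 p2
  have pm : phi (Z (-1)) i2 = 0 := port_zero d2m p2
  obtain ⟨e2, he2, hR2⟩ := W.rn (Z 2) (H.mem 2)
  obtain ⟨e0, he0, hR0⟩ := W.rn (Z 0) (H.mem 0)
  have hmt2 := hcy.mtl 2
  rw [he2] at hmt2
  obtain ⟨c, n, G, fd⟩ := hFD ℤ P L phi D (Z 2) i2 (ld e2 1) h2
    ⟨hD, h2L, r 2, h2, by have := V0_ne hR2 (le_refl 1); rwa [Nat.cast_one] at this⟩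
  obtain ⟨hs, hbig⟩ := sf_B hSf W.ko hR2 H.f0 fd (Or.inr ⟨_, _, hmt2⟩)
  have hQ0 : (q + X * f).coeff 0 = 1 := by
    rw [coeff_add, coeff_X_mul_zero, hR2.loc.q0, add_zero]
  have hy := H.tp.hy
  have hII := H.tp.II
  have hII' : (aeval ((j : ℝ)⁻¹) (q + X * f) : ℝ) ≤ 0 := by
    rw [map_add, map_mul, aeval_X]
    exact hII
  have hjr : (2 : ℝ) ≤ j := by exact_mod_cast hj
  obtain ⟨b, hb0, hb1, hbr⟩ : ∃ b : ℝ, 0 < b ∧ b < 1 ∧
      ((q + X * f).map (Coef.emb : ℤ →+* ℂ)).roots.filter (fun x => ‖x‖ < 1) = {(b : ℂ)} := by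
    have h3 := lob hPc hR2.loc hR2.u hR2.ne (le_refl 1)
    rw [pow_one] at h3
    rcases h3 with h3 | ⟨b, h4, h5, h6⟩
    · exfalso
      have h4 := pos_zf (by rw [hQ0]; norm_num) h3 (x := (j : ℝ)⁻¹) (by positivity)
        (inv_lt_one_of_one_lt₀ (by linarith))
      linarith
    · exact ⟨b, lt_trans hR2.loc.a0 h4, h5, h6⟩
  have hP : ClassP b⁻¹ (D.coeff 0 + ((ld e2 1 : (RO ℤ)ˣ) : RO ℤ) * D.coeff (Z 2)) := by
    have h3 := V0_ld hR2 1
    rw [pow_one, Nat.cast_one] at h3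
    rw [h3]
    exact classP_of hb0 hb1 hQ0 hbr
  have hdr := W.kc.dr (Z 2) (H.mem 2) i2 h2
  rw [he2] at hdr
  obtain ⟨l⟩ := fac_ex fd (by omega)
  have hbg := all_big hClp fp fd hs
  have hx : ∀ i, (G i).coeff 0 ≠ 0 := fun i => (fd.st i).1
  have hP2 := hP
  rw [fd.v00] at hP2
  obtain ⟨hone, -, hc1⟩ := KE.one_fac hE1 hMV hMm fd.c0 hx hP2 hbg l
  have hprod : ∏ i, G i = G l := by
    rw [Finset.prod_eq_single l]
    · intro i _ hi
      exact absurd (hone i) hi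
    · intro hi
      exact absurd (Finset.mem_univ l) hi
  have hcl : cl (co phi i2) (Z 2) h2 (ld e2 1) D = cst c * G l := by rw [fd.eq, hprod]
  have hsup : supp (cl (co phi i2) (Z 2) h2 (ld e2 1) D) = supp (G l) := by
    rw [hcl, H56.supp_cst_mul fd.c0]
  obtain ⟨-, K, hsat, hKG, hKr, hKD⟩ := (hClp ℤ P L phi D (Z 2) i2 (ld e2 1) h2 c n G fp fd).2 l
  have hKs : ∀ x ∈ supp (cl (co phi i2) (Z 2) h2 (ld e2 1) D), x ∈ K := by
    intro x hx
    rw [hsup] at hx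
    exact hKG x hx
  have hKrk : Module.finrank ℤ K + 1 = 2 * j := by
    rw [hKr, ← hsup]
    omega
  -- the content is a unit
  have hcu : IsUnit c := by
    obtain ⟨h3, h4⟩ := (hMV ℤ).1 _ _ hc1
    refine hM1 ℤ c h3 h4 fun z hz => ?_
    have h5 := congrArg (evR z) fd.v00
    rw [map_mul, hz, zero_mul] at h5
    have h6 := V0_ld hR2 1
    rw [pow_one, Nat.cast_one] at h6
    rw [h6, evR_poly] at h5
    exact H.cusp z (Circle.norm_coe z) h5
  set F : AO ℤ K := res K (cl (co phi i2) (Z 2) h2 (ld e2 1) D) with hF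
  have hFe : F = cst c * res K (G l) := by
    apply AddMonoidAlgebra.ext
    apply Finsupp.ext
    intro x
    rw [H56.cstm, hF, res_coeff, hcl, H56.cstm, res_coeff]
  have hFD' : DD ((phO phi (Z 2) i2).comp (incl K)) F := by
    rw [hFe]
    exact H78.dd_cst hcu (fun z => (hcu.map (evR z)).ne_zero) hKD
  have hco : ∀ x : Ker (co phi i2), (cl (co phi i2) (Z 2) h2 (ld e2 1) D).coeff x =
      D.coeff (x : L) + ((ld e2 1 : (RO ℤ)ˣ) : RO ℤ) * D.coeff ((x : L) + Z 2) :=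
    H47.cl_coeff_bin (co phi i2) (Z 2) h2 (ld e2 1) D (fun x hx => hD.bin x hx i2)
  obtain ⟨g, hg⟩ : ∃ g : ℤ[X], g = f + X * (f - γ) := ⟨_, rfl⟩
  have hg0 : g.coeff 0 = 1 := by rw [hg, coeff_add, coeff_X_mul_zero, H.f0, add_zero]
  have hXg : (toLaurent (X * g) : RO ℤ) = toLaurent (X * f) + toLaurent (X ^ 2 * (f - γ)) := by
    rw [← map_add, hg]
    congr 1
    ring
  have hXg0 : (toLaurent (X * g) : RO ℤ) ≠ 0 := by
    rw [toLaurent_ne_zero]
    refine mul_ne_zero X_ne_zero ?_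
    rintro rfl
    rw [coeff_zero] at hg0
    exact zero_ne_one hg0
  -- the two rays
  have c0 : (eta (Z 0) : RO ℤ) * (D.coeff (Z 0) + ((ld e2 1 : (RO ℤ)ˣ) : RO ℤ) *
      D.coeff (Z 0 + Z 2)) = toLaurent (X * g) := by
    have h3 := H.co 0
    have h4 := (hA 0).a0.s02
    rw [zero_add, he2] at h4
    rw [hXg]
    linear_combination h3 + h4
  have cm : (eta (Z (-1)) : RO ℤ) * (D.coeff (Z (-1)) + ((ld e2 1 : (RO ℤ)ˣ) : RO ℤ) *
      D.coeff (Z (-1) + Z 2)) = toLaurent (X * g) := by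
    have h3 := H.co (-1)
    have h4 := (hA (-1)).s03
    have h5 : (-1 + 3 : ZMod (k + 3)) = 2 := by ring
    rw [h5, he2] at h4
    rw [hXg]
    linear_combination h3 + h4
  have ne0 : D.coeff (Z 0) + ((ld e2 1 : (RO ℤ)ˣ) : RO ℤ) * D.coeff (Z 0 + Z 2) ≠ 0 := by
    intro h0
    rw [h0, mul_zero] at c0
    exact hXg0 c0.symm
  have nem : D.coeff (Z (-1)) + ((ld e2 1 : (RO ℤ)ˣ) : RO ℤ) * D.coeff (Z (-1) + Z 2) ≠ 0 := by
    intro h0
    rw [h0, mul_zero] at cm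
    exact hXg0 cm.symm
  obtain ⟨N0, hN0⟩ : ∃ N0 : Ker (co phi i2), (N0 : L) = Z 0 := ⟨⟨Z 0, p0⟩, rfl⟩
  obtain ⟨Nm, hNm⟩ : ∃ Nm : Ker (co phi i2), (Nm : L) = Z (-1) := ⟨⟨Z (-1), pm⟩, rfl⟩
  obtain ⟨rG0, him⟩ := KV.H76.ray_im hFsp fp h2 hN0 (r 2) (r 0) (fun i => (d20 i).symm) la2 la0
    hla hcl fd.c0 ne0
  obtain ⟨rGm, -⟩ := KV.H76.ray_im hFsp fp h2 hNm (r 2) (r (-1)) (fun i => (d2m i).symm) lb2 lbm
    hlb hcl fd.c0 nem
  obtain ⟨x0, hx0⟩ : ∃ x0 : K, (x0 : Ker (co phi i2)) = N0 := ⟨⟨N0, hKG _ rG0.1⟩, rfl⟩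
  obtain ⟨xm, hxm⟩ : ∃ xm : K, (xm : Ker (co phi i2)) = Nm := ⟨⟨Nm, hKG _ rGm.1⟩, rfl⟩
  have rF0 : Ray F x0 := ray_res (by rw [hx0]; exact rG0) hsup
  have rFm : Ray F xm := ray_res (by rw [hxm]; exact rGm) hsup
  have hx0L : ((x0 : Ker (co phi i2)) : L) = Z 0 := by rw [hx0, hN0]
  have hxmL : ((xm : Ker (co phi i2)) : L) = Z (-1) := by rw [hxm, hNm]
  have F0 : F.coeff 0 = toLaurent (q + X * f) := by
    have h3 : F.coeff 0 = (cl (co phi i2) (Z 2) h2 (ld e2 1) D).coeff 0 := rfl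
    have h6 := V0_ld hR2 1
    rw [pow_one, Nat.cast_one] at h6
    rw [h3, hco, ZeroMemClass.coe_zero, zero_add]
    exact h6
  have cF0 : (eta (Z 0) : RO ℤ) * F.coeff x0 = toLaurent (X * g) := by
    rw [hF, res_coeff, hco, hx0L]
    exact c0
  -- mutual
  have hmut : Mut F x0 xm (ld e0 1) (eta (Z (-1))) := by
    refine ⟨rF0, rFm, fun h3 => ?_, fun h3 => ?_⟩
    · have h4 := ker_cl h2 (u := ld e2 1) (e := ld e0 1) (nu := mu 0) (fun x hx => by
        rw [← he0] at hx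
        exact (hcy.ker 0 x).1 hx) m02 hKs hx0L (r 0).2.1 xm h3
      rw [hxmL, m0m] at h4
      norm_num at h4
    · have h4 := ker_cl h2 (u := ld e2 1) (e := eta (Z (-1))) (nu := mu (-1))
        (fun x hx => (hcy.ker (-1) x).1 hx) mm2 hKs hxmL (r (-1)).2.1 x0 h3
      rw [hx0L, mm0] at h4
      norm_num at h4
  -- the normal form
  have DS : (e0 : RO ℤ) * F.coeff x0 = toLaurent g := by
    rw [he0] at cF0
    have hv : ((ld e0 1 : (RO ℤ)ˣ) : RO ℤ) = LaurentPolynomial.T 1 * (e0 : RO ℤ) := ld_val e0 1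
    rw [hv, map_mul, toLaurent_X, mul_assoc] at cF0
    exact (LaurentPolynomial.isUnit_T (R := ℤ) 1).mul_left_cancel cF0
  obtain ⟨-, -, -, -, -, hray⟩ := hE2 ℤ _ K _ F hFD' (by omega)
  obtain ⟨hle, z0, hz0⟩ := hray x0 rF0
  have hnS : ∀ z : Circle, ‖evR z (F.coeff x0)‖ = ‖(aeval (z : ℂ) g : ℂ)‖ := by
    intro z
    have h3 := congrArg (fun p => ‖evR z p‖) DS
    simp only [map_mul, norm_mul, C4C.norm_evR_unit z e0.isUnit, one_mul] at h3
    rw [h3, evR_poly]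
  have hn0 : ∀ z : Circle, ‖evR z (F.coeff 0)‖ = ‖(aeval (z : ℂ) (q + X * f) : ℂ)‖ := by
    intro z
    rw [F0, evR_poly]
  have rn : RN F x0 (q + X * f) g e0 b := by
    refine ⟨⟨hb0, hb1, hQ0, ?_, KE.fac_of (by rw [hQ0]; norm_num) hbr H.cusp⟩, ?_, ?_, F0, DS⟩
    · intro z hz
      obtain ⟨zc, rfl⟩ := circle_of z hz
      rw [← hnS, ← hn0]
      exact hle zc
    · refine ⟨(z0 : ℂ), Circle.norm_coe z0, ?_⟩
      rw [← hnS, ← hn0]
      exact hz0
    · rw [hg0]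
  have hImF : ImS ((phO phi (Z 2) i2).comp (incl K)) x0 := by
    intro y hy
    obtain ⟨m, hm⟩ := him (y : Ker (co phi i2)) (fun i hi => hy i (by
      change phO phi (Z 2) i2 (x0 : Ker (co phi i2)) i = 0
      rw [hx0]
      exact hi))
    refine ⟨m, Subtype.ext ?_⟩
    rw [hm, ← hx0]
    rfl
  have HF : Hf ((phO phi (Z 2) i2).comp (incl K)) F x0 xm e0 (eta (Z (-1))) (q + X * f) g b j := by
    refine ⟨hFD', hmut, hImF, hKrk, hj, rn, hg0,
      (lam.comp (incl (Ker (co phi i2)))).comp (incl K), ?_, ?_, ?_⟩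
    · change lam ((x0 : Ker (co phi i2)) : L) = 0
      rw [hx0L, l0]
    · change lam ((xm : Ker (co phi i2)) : L) = 0
      rw [hxmL, lm]
    · intro x hx
      change 0 ≤ lam ((x : Ker (co phi i2)) : L) ∧ (lam ((x : Ker (co phi i2)) : L) = 0 → _)
      have h3 : (cl (co phi i2) (Z 2) h2 (ld e2 1) D).coeff (x : Ker (co phi i2)) ≠ 0 := hx
      rw [hco] at h3
      have hxi : phi ((x : Ker (co phi i2)) : L) i2 = 0 := (x : Ker (co phi i2)).2
      obtain ⟨m, hm⟩ : ∃ m : ℤ, D.coeff (((x : Ker (co phi i2)) : L) + m • Z 2) ≠ 0 := by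
        by_contra hcon
        push Not at hcon
        apply h3
        have q1 := hcon 0
        have q2 := hcon 1
        rw [zero_smul, add_zero] at q1
        rw [one_smul] at q2
        rw [q1, q2, mul_zero, add_zero]
      obtain ⟨h5, h6⟩ := hfb _ hm
      have h7 : lam (((x : Ker (co phi i2)) : L) + m • Z 2) = lam ((x : Ker (co phi i2)) : L) := by
        rw [map_add, map_zsmul, l2, smul_zero, add_zero]
      rw [h7] at h5 h6
      refine ⟨h5, fun h8 => ?_⟩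
      obtain ⟨a1, b1, c1, -, -, hc1', habc⟩ := h6 h8
      have hi0 := congrFun (congrArg phi habc) i2
      simp only [map_add, map_zsmul, Pi.add_apply, Pi.smul_apply, smul_eq_mul, hxi, p2, p0, pm,
        mul_zero, mul_one, add_zero, zero_add] at hi0
      rw [hi0] at habc
      have hxe : ((x : Ker (co phi i2)) : L) = b1 • Z 0 + c1 • Z (-1) := by
        have h9 : ((x : Ker (co phi i2)) : L) + a1 • Z 2 = (b1 • Z 0 + c1 • Z (-1)) + a1 • Z 2 := by
          rw [habc]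
          abel
        exact add_right_cancel h9
      refine ⟨b1, c1, hc1', ?_⟩
      apply Subtype.ext
      apply Subtype.ext
      rw [hxe, ← hx0L, ← hxmL]
      rfl
  refine HF.fin hT hNd hSm hRF hG0 hC0 hW hE1 hMV hRkU hLmn hMco hFD hMm hRk hEvz hEv1 hFcl hU
    ?_ (y := (j : ℝ)⁻¹) hy hII'
  have h3 := H.n
  have h4 : g.coeff 1 = f.coeff 1 + (1 - γ.coeff 0) := by
    rw [hg, coeff_add, coeff_X_mul f 0 |> fun _ => coeff_X_mul (f - γ) 0, coeff_sub, H.f0]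
  have h5 : (q + X * f).coeff 1 = q.coeff 1 + 1 := by
    rw [coeff_add, coeff_X_mul f 0, H.f0]
  rw [h4, h5]
  omega

end Pool.Agent.B5.OC29
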