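import Pool.Agent.Lib.MP_b5021c_nt.IfaceBE
import Pool.Agent.Lib.MP_b5021c_nt.O1.H12.Cnt
import Pool.Agent.Lib.MP_b5021c_nt.KO.H95.Bnk

/-!
# Board b5, (O4), cycles of length three, PURE BETA: the count (row BE_CNT, helper29)
-/

set_option linter.unusedSectionVars false

namespace Pool.Agent.B5.KO29

open scoped LaurentPolynomial
open Polynomial
open Pool.Agent.B5.KE
open Pool.Agent.B5.KO67
open Pool.Agent.B5.O1.H12

section

variable {P : Type} [Fintype P] [DecidableEq P] {L : Type} [AddCommGroup L] [Module.Free ℤ L]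
  [Module.Finite ℤ L] {phi : L →+ (P → ℤ)} {D : AO ℤ L} {q f : ℤ[X]} {a : ℝ} {j s : ℕ}
  {S : Fin 3 → L} {es : Fin 3 → (RO ℤ)ˣ} {T : Fin s → L} {lam : Fin s → (RO ℤ)ˣ}

/-! ## Ports -/

theorem be_binT (W : Be phi D q f a j s S es T lam) (i : Fin s) : Bin phi (T i) :=
  W.ko.min.fp.dd.bin _ (W.rT i).1

theorem be_binS (W : Be phi D q f a j s S es T lam) (i : Fin 3) : Bin phi (S i) :=
  W.ko.min.fp.dd.bin _ (W.rS i).1

theorem phi_sST (A : Finset (Fin 3)) (B : Finset (Fin s)) (p : P) :
    phi (sST S T A B) p = ∑ i ∈ A, phi (S i) p + ∑ i ∈ B, phi (T i) p := by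
  unfold sST
  rw [map_add, map_sum, map_sum, Pi.add_apply, Finset.sum_apply, Finset.sum_apply]

/-- The ports of `T k`. -/
theorem port_T (W : Be phi D q f a j s S es T lam) {k : Fin s} {p : P} (hp : phi (T k) p = 1)
    (A : Finset (Fin 3)) (B : Finset (Fin s)) :
    phi (sST S T A B) p = if k ∈ B then 1 else 0 := by
  classical
  rw [phi_sST, Finset.sum_eq_zero (s := A), zero_add]
  · split_ifs with h
    · rw [Finset.sum_eq_single_of_mem k h, hp]
      intro l _ hl
      rcases W.dTT l k hl p with h1 | h1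
      · exact h1
      · rw [h1] at hp; exact absurd hp (by norm_num)
    · apply Finset.sum_eq_zero
      intro l hl
      have hlk : l ≠ k := fun h1 => h (h1 ▸ hl)
      rcases W.dTT l k hlk p with h1 | h1
      · exact h1
      · rw [h1] at hp; exact absurd hp (by norm_num)
  · intro l _
    rcases W.dST l k p with h1 | h1
    · exact h1
    · rw [h1] at hp; exact absurd hp (by norm_num)

/-- The ports of `S m`. -/
theorem port_S (W : Be phi D q f a j s S es T lam) {m : Fin 3} {p : P} (hp : phi (S m) p = 1)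
    (A : Finset (Fin 3)) (B : Finset (Fin s)) :
    phi (sST S T A B) p = if m ∈ A then 1 else 0 := by
  classical
  rw [phi_sST, Finset.sum_eq_zero (s := B), add_zero]
  · split_ifs with h
    · rw [Finset.sum_eq_single_of_mem m h, hp]
      intro l _ hl
      rcases W.dSS l m hl p with h1 | h1
      · exact h1
      · rw [h1] at hp; exact absurd hp (by norm_num)
    · apply Finset.sum_eq_zero
      intro l hl
      have hlk : l ≠ m := fun h1 => h (h1 ▸ hl)
      rcases W.dSS l m hlk p with h1 | h1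
      · exact h1
      · rw [h1] at hp; exact absurd hp (by norm_num)
  · intro l _
    rcases W.dST m l p with h1 | h1
    · rw [h1] at hp; exact absurd hp (by norm_num)
    · exact h1

theorem sST_insert {A : Finset (Fin 3)} {B : Finset (Fin s)} {i : Fin s} (hi : i ∉ B) :
    sST S T A B + T i = sST S T A (insert i B) := by
  unfold sST
  rw [Finset.sum_insert hi]
  abel

/-! ## The exponents of the closed element -/

/-- The exponents of `D(x_i = 1)`. -/
theorem vsup (hVco : VcoS) (W : Be phi D q f a j s S es T lam) (i : Fin s) {i0 : P}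
    (h : co phi i0 (T i) = 1) (x : Ker (co phi i0))
    (hx : x ∈ supp (cl (co phi i0) (T i) h (lam i) D)) :
    ∃ (A : Finset (Fin 3)) (C : Finset (Fin s)), i ∉ C ∧ (A = ∅ ∨ A = Finset.univ) ∧
      (x : L) = sST S T A C := by
  classical
  have hD := W.ko.min.fp.dd
  have hp : phi (T i) i0 = 1 := h
  obtain ⟨-, h2, h3, -, h5⟩ := hVco ℤ P L phi D (T i) (lam i) hD.inj hD.bin (be_binT W i)
    (W.rT i).2.1
  have hx0 : vco (lam i) (T i) D (x : L) ≠ 0 := by
    rw [← h5 i0 h x]; exact hx
  have hxk : phi (x : L) i0 = 0 := x.2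
  obtain ⟨k, hk⟩ := h2 _ hx0
  obtain ⟨A, B, hAB⟩ := W.sup _ hk
  have h6 : (k : ℤ) = if i ∈ B then 1 else 0 := by
    rw [← port_T W hp A B, ← hAB, map_add, map_zsmul, Pi.add_apply, Pi.smul_apply, hxk, hp,
      smul_eq_mul, mul_one, zero_add]
  obtain ⟨C, hC, hxC⟩ : ∃ C : Finset (Fin s), i ∉ C ∧ (x : L) = sST S T A C := by
    split_ifs at h6 with hi
    · refine ⟨B.erase i, Finset.notMem_erase i B, ?_⟩
      rw [h6, one_smul] at hAB
      rw [eq_sub_of_add_eq hAB, ← Finset.insert_erase hi, ← sST_insert (Finset.notMem_erase i B),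
        Finset.erase_insert (Finset.notMem_erase i B)]
      abel
    · refine ⟨B, hi, ?_⟩
      rw [h6, zero_smul, add_zero] at hAB
      exact hAB
  refine ⟨A, C, hC, ?_, hxC⟩
  by_contra hcon
  push Not at hcon
  apply hx0
  have hdis : ∀ p, phi (x : L) p = 0 ∨ phi (T i) p = 0 := by
    intro p
    rcases be_binT W i p with h7 | h7
    · exact Or.inr h7
    · left
      rw [hxC, port_T W h7, if_neg hC]
  rw [h3 _ hdis, hxC, sST_insert hC]
  have e1 := W.psi A C hcon.1.ne_empty hcon.2
  have e2 := W.psi A (insert i C) hcon.1.ne_empty hcon.2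
  rw [Finset.card_insert_of_notMem hC, Finset.prod_insert hC] at e2
  have hu : IsUnit ((∏ i ∈ A, (ld (es i) 1 : RO ℤ)) * (∏ i ∈ C, (lam i : RO ℤ))) := by
    apply IsUnit.mul
    · exact IsUnit.prod_iff.mpr fun m _ => (ld (es m) 1).isUnit
    · exact IsUnit.prod_iff.mpr fun m _ => (lam m).isUnit
  apply hu.mul_left_cancel
  rw [mul_zero, mul_add, e1]
  have e3 : (∏ i ∈ A, (ld (es i) 1 : RO ℤ)) * (∏ i ∈ C, (lam i : RO ℤ)) *
      ((lam i : RO ℤ) * D.coeff (sST S T A (insert i C))) =
      -((-1) ^ (A.card + (C.card + 1)) * toLaurent (X * f)) := by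
    rw [← e2]; ring
  rw [e3, ← add_assoc, pow_succ]
  ring

/-! ## One small factor -/

theorem sub_single_coeff {K : Type} [AddCommGroup K] (b : K) (r : RO ℤ) (X : AO ℤ K) (y : K) :
    ((1 - AddMonoidAlgebra.single b r) * X).coeff y = X.coeff y - r * X.coeff (y - b) := by
  rw [sub_mul, one_mul, AddMonoidAlgebra.coeff_sub, Finsupp.sub_apply,
    AddMonoidAlgebra.coeff_single_mul_apply, neg_add_eq_sub]

/-- Products of elements of degree zero. -/
theorem supp_prod0 {K : Type} [AddCommGroup K] {n : ℕ} (G : Fin n → AO ℤ K) (g : K →+ ℤ)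
    (t : Finset (Fin n)) (hG : ∀ i ∈ t, ∀ a ∈ supp (G i), g a = 0) :
    ∀ a ∈ supp (∏ i ∈ t, G i), g a = 0 := by
  classical
  induction t using Finset.induction_on with
  | empty =>
    intro a ha
    rw [Finset.prod_empty] at ha
    by_cases h0 : a = 0
    · rw [h0, map_zero]
    · exfalso
      apply ha
      change (AddMonoidAlgebra.single (0 : K) (1 : RO ℤ)).coeff a = 0
      rw [AddMonoidAlgebra.coeff_single, Finsupp.single_eq_of_ne h0]
  | insert i t hi ih =>
    intro a ha
    rw [Finset.prod_insert hi] at ha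
    change ((G i) * ∏ i ∈ t, G i).coeff a ≠ 0 at ha
    rw [AddMonoidAlgebra.coeff_mul] at ha
    unfold Finsupp.sum at ha
    obtain ⟨b, -, hb⟩ := Finset.exists_ne_zero_of_sum_ne_zero ha
    obtain ⟨c, -, hc⟩ := Finset.exists_ne_zero_of_sum_ne_zero hb
    simp only [] at hc
    split_ifs at hc with h1
    · rw [← h1, map_add, hG i (Finset.mem_insert_self _ _) b (left_ne_zero_of_mul hc),
        ih (fun k hk => hG k (Finset.mem_insert_of_mem hk)) c (right_ne_zero_of_mul hc), add_zero]
    · exact absurd rfl hc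

/-- The closed element without the small factor `l`. -/
theorem split_l {i : Fin s} {i0 : P} {h : co phi i0 (T i) = 1} {c : RO ℤ} {n : ℕ}
    {G : Fin n → AO ℤ (Ker (co phi i0))} (fd : FD phi D (T i) i0 (lam i) h c n G) {l : Fin n}
    {b : Ker (co phi i0)} {jj : P} {e : (RO ℤ)ˣ} (sp : Spt phi (T i) i0 G l b jj e)
    (hSpj : SpjS) :
    ∃ X : AO ℤ (Ker (co phi i0)), (∀ y, (cl (co phi i0) (T i) h (lam i) D).coeff y =
        X.coeff y - ((e⁻¹ : (RO ℤ)ˣ) : RO ℤ) * X.coeff (y - b)) ∧
      ∀ y ∈ supp X, ∀ p, phi (b : L) p = 1 → phi (T i) p = 0 → phi (y : L) p = 0 := by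
  classical
  refine ⟨cst (c * (G l).coeff 0) * ∏ k ∈ Finset.univ.erase l, G k, fun y => ?_, ?_⟩
  · rw [← sub_single_coeff]
    congr 2
    rw [fd.eq, ← Finset.mul_prod_erase Finset.univ G (Finset.mem_univ l)]
    conv_lhs => rw [sp.eq]
    have h1 : (cst (c * (G l).coeff 0) : AO ℤ (Ker (co phi i0))) = cst c * cst ((G l).coeff 0) := by
      unfold cst
      rw [AddMonoidAlgebra.single_mul_single, add_zero]
    rw [h1]
    ring
  · intro y hy p hb hp
    have hpO : p ∈ OO phi (T i) := by
      unfold OO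
      exact Finset.mem_filter.mpr ⟨Finset.mem_univ _, hp⟩
    have sp' := hSpj ℤ P L phi D (T i) i0 (lam i) h c n G fd l b jj e sp p hpO hb
    have h1 : y ∈ supp (∏ k ∈ Finset.univ.erase l, G k) := by
      intro h0
      apply hy
      rw [H71.cst_mul_coeff, h0, mul_zero]
    exact supp_prod0 G ((co phi p).comp (incl (Ker (co phi i0)))) (Finset.univ.erase l)
      (fun k hk a ha => sp'.other k (Finset.ne_of_mem_erase hk) a ha) y h1

/-- The ray of a small factor is an exponent of it. -/
theorem spt_mem {i : Fin s} {i0 : P} {n : ℕ} {G : Fin n → AO ℤ (Ker (co phi i0))} {l : Fin n}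
    {b : Ker (co phi i0)} {jj : P} {e : (RO ℤ)ˣ} (sp : Spt phi (T i) i0 G l b jj e) :
    b ∈ supp (G l) := by
  have hb0 : b ≠ 0 := by
    rintro rfl
    have h1 := sp.bj
    rw [ZeroMemClass.coe_zero, map_zero] at h1
    exact zero_ne_one h1
  intro h0
  rw [sp.eq, H71.cst_mul_coeff] at h0
  have h1 := (sp.u0.mul_right_eq_zero).mp h0
  rw [AddMonoidAlgebra.coeff_sub, Finsupp.sub_apply, AddMonoidAlgebra.coeff_single,
    Finsupp.single_eq_same] at h1
  have h2 : (1 : AO ℤ (Ker (co phi i0))).coeff b = 0 := by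
    change (AddMonoidAlgebra.single (0 : Ker (co phi i0)) (1 : RO ℤ)).coeff b = 0
    rw [AddMonoidAlgebra.coeff_single, Finsupp.single_eq_of_ne hb0]
  rw [h2, zero_sub, neg_eq_zero] at h1
  exact (e⁻¹).ne_zero h1

/-- The coefficients of the closed element. -/
theorem cl_coeff (hVco : VcoS) (W : Be phi D q f a j s S es T lam) (i : Fin s) {i0 : P}
    (h : co phi i0 (T i) = 1) (x : Ker (co phi i0))
    (hdis : ∀ p, phi (x : L) p = 0 ∨ phi (T i) p = 0) :
    (cl (co phi i0) (T i) h (lam i) D).coeff x =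
      D.coeff (x : L) + (lam i : RO ℤ) * D.coeff ((x : L) + T i) := by
  have hD := W.ko.min.fp.dd
  obtain ⟨-, -, h3, -, h5⟩ := hVco ℤ P L phi D (T i) (lam i) hD.inj hD.bin (be_binT W i)
    (W.rT i).2.1
  rw [h5 i0 h x, h3 _ hdis]

/-- A small factor of the first kind: `T k` is parallel to `T i`. -/
theorem par_of (hVco : VcoS) (hSpj : SpjS) (W : Be phi D q f a j s S es T lam) {i : Fin s}
    {i0 : P} {h : co phi i0 (T i) = 1} {c : RO ℤ} {n : ℕ}
    {G : Fin n → AO ℤ (Ker (co phi i0))} (fd : FD phi D (T i) i0 (lam i) h c n G) {l : Fin n}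
    {b : Ker (co phi i0)} {jj : P} {e : (RO ℤ)ˣ} (sp : Spt phi (T i) i0 G l b jj e) {k : Fin s}
    (hk : k ≠ i) (hb : (b : L) = T k) (he : e = lam k) :
    bmm D (T i) (T k) (lam i) (lam k) = 0 := by
  obtain ⟨X, hX, hXs⟩ := split_l fd sp hSpj
  have hjO : phi (T i) jj = 0 := by
    have h1 := sp.jO
    unfold OO at h1
    exact (Finset.mem_filter.mp h1).2
  have hbj := sp.bj
  have x1 : X.coeff (0 - b) = 0 := by
    by_contra hcon
    have h1 := hXs _ hcon jj hbj hjO
    rw [AddSubgroupClass.coe_sub, map_sub, Pi.sub_apply, hbj, ZeroMemClass.coe_zero, map_zero,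
      Pi.zero_apply] at h1
    norm_num at h1
  have x2 : X.coeff b = 0 := by
    by_contra hcon
    have h1 := hXs _ hcon jj hbj hjO
    rw [hbj] at h1
    exact one_ne_zero h1
  have c0 := hX 0
  have c1 := hX b
  rw [x1, mul_zero, sub_zero] at c0
  rw [x2, sub_self, zero_sub] at c1
  have d0 := cl_coeff hVco W i h 0 (fun p => by
    left; rw [ZeroMemClass.coe_zero, map_zero, Pi.zero_apply])
  have d1 := cl_coeff hVco W i h b (fun p => by
    rw [hb]; exact W.dTT k i hk p)
  rw [ZeroMemClass.coe_zero, zero_add] at d0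
  rw [hb] at d1
  have h3 : (lam k : RO ℤ) * (cl (co phi i0) (T i) h (lam i) D).coeff b =
      -(cl (co phi i0) (T i) h (lam i) D).coeff 0 := by
    rw [c1, c0, he, mul_neg, ← mul_assoc, ← Units.val_mul, mul_inv_cancel, Units.val_one, one_mul]
  rw [d0, d1] at h3
  unfold bmm
  rw [add_comm (T i) (T k)]
  linear_combination h3

/-- The setup. -/
theorem be_fd (hFD : FDS) (W : Be phi D q f a j s S es T lam) (i : Fin s) :
    ∃ (i0 : P) (h : co phi i0 (T i) = 1) (c : RO ℤ) (n : ℕ)
      (G : Fin n → AO ℤ (Ker (co phi i0))), FD phi D (T i) i0 (lam i) h c n G := by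
  have hD := W.ko.min.fp.dd
  obtain ⟨i0, h⟩ := KE.exists_port hD (W.rT i)
  have hv : D.coeff 0 + (lam i : RO ℤ) * D.coeff (T i) ≠ 0 := by
    obtain ⟨-, g, e, hR, h1 | ⟨h1, -⟩⟩ := W.tT i
    · rw [h1]
      have h2 := V0_ne hR (le_refl 1)
      rwa [Nat.cast_one] at h2
    · rw [h1]
      exact V0_ne_A hR
  have htwo : 2 ≤ Module.finrank ℤ L := by
    rw [W.ko.rk]
    have := W.ko.j2
    omega
  obtain ⟨c, n, G, fd⟩ := hFD ℤ P L phi D (T i) i0 (lam i) h ⟨hD, htwo, W.rT i, h, hv⟩
  exact ⟨i0, h, c, n, G, fd⟩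

/-- The rank of the closed element. -/
theorem be_rk (hRkU : RkUSS) (hZ : BeZS) (W : Be phi D q f a j s S es T lam) (i : Fin s) {i0 : P}
    (h : co phi i0 (T i) = 1) : rk (supp (cl (co phi i0) (T i) h (lam i) D)) = s := by
  have hD := W.ko.min.fp.dd
  have h1 := hRkU ℤ P L phi D (T i) i0 h (lam i) hD.inj hD.bin (be_binT W i)
  have h2 := hZ P L phi D q f a j s S es T lam W i
  have h3 := W.s2
  omega

/-- CASE A: a small factor which contains the cycle. -/
theorem case_A (hVco : VcoS) (hSpj : SpjS) (hRkU : RkUSS) (hRk : RkS) (hZ : BeZS)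
    (W : Be phi D q f a j s S es T lam) {i : Fin s}
    {i0 : P} {h : co phi i0 (T i) = 1} {c : RO ℤ} {n : ℕ}
    {G : Fin n → AO ℤ (Ker (co phi i0))} (fd : FD phi D (T i) i0 (lam i) h c n G) {l : Fin n}
    {b : Ker (co phi i0)} {jj : P} {e : (RO ℤ)ˣ} (sp : Spt phi (T i) i0 G l b jj e)
    {B : Finset (Fin s)} (hiB : i ∉ B) (hb : (b : L) = S 0 + S 1 + S 2 + ∑ k ∈ B, T k) :
    B = ∅ := by
  classical
  have hD := W.ko.min.fp.dd
  have hb' : (b : L) = sST S T Finset.univ B := by
    rw [hb]
    unfold sST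
    rw [Fin.sum_univ_three]
  obtain ⟨X, hX, hXs⟩ := split_l fd sp hSpj
  -- ports
  obtain ⟨p0, hp0⟩ := KE.exists_port hD (W.rS 0)
  have hp0' : phi (S 0) p0 = 1 := hp0
  have hp0T : phi (T i) p0 = 0 := by
    rcases W.dST 0 i p0 with h1 | h1
    · rw [h1] at hp0'; exact absurd hp0' (by norm_num)
    · exact h1
  have hp0b : phi (b : L) p0 = 1 := by
    rw [hb', port_S W hp0', if_pos (Finset.mem_univ _)]
  have hpk : ∀ k, ∃ p, phi (T k) p = 1 := fun k => KE.exists_port hD (W.rT k)
  choose pt hpt using hpk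
  have hptT : ∀ k, k ≠ i → phi (T i) (pt k) = 0 := by
    intro k hk
    rcases W.dTT k i hk (pt k) with h1 | h1
    · have h2 := hpt k
      rw [h1] at h2
      exact absurd h2 (by norm_num)
    · exact h1
  have hptb : ∀ k ∈ B, phi (b : L) (pt k) = 1 := by
    intro k hk
    rw [hb', port_T W (hpt k), if_pos hk]
  have key : ∀ y ∈ supp (cl (co phi i0) (T i) h (lam i) D), (y : L) ∈ Submodule.span ℤ
      ((insert (b : L) ((Finset.univ \ insert i B).image T) : Finset L) : Set L) := by
    intro y hy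
    obtain ⟨A, C, hiC, hA, hyC⟩ := vsup hVco W i h y hy
    have hsum : ∀ C' : Finset (Fin s), i ∉ C' → Disjoint C' B → ∑ k ∈ C', T k ∈
        Submodule.span ℤ
          ((insert (b : L) ((Finset.univ \ insert i B).image T) : Finset L) : Set L) := by
      intro C' h1 h2
      apply Submodule.sum_mem
      intro k hk
      apply Submodule.subset_span
      rw [Finset.coe_insert, Finset.coe_image]
      right
      refine ⟨k, ?_, rfl⟩
      rw [Finset.coe_sdiff, Finset.coe_univ]
      refine ⟨Set.mem_univ _, ?_⟩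
      rw [Finset.mem_coe, Finset.mem_insert]
      rintro (h3 | h3)
      · exact h1 (h3 ▸ hk)
      · exact Finset.disjoint_left.mp h2 hk h3
    by_cases hXy : X.coeff y = 0
    · have hXy' : X.coeff (y - b) ≠ 0 := by
        intro h0
        apply hy
        rw [hX, hXy, h0, mul_zero, sub_zero]
      have hz : ∀ p, phi (b : L) p = 1 → phi (T i) p = 0 → phi (y : L) p = 1 := by
        intro p h1 h2
        have h3 := hXs _ hXy' p h1 h2
        rw [AddSubgroupClass.coe_sub, map_sub, Pi.sub_apply, h1] at h3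
        linarith
      have hA' : A = Finset.univ := by
        rcases hA with h1 | h1
        · exfalso
          have h2 := hz p0 hp0b hp0T
          rw [hyC, h1, port_S W hp0', if_neg (Finset.notMem_empty _)] at h2
          exact zero_ne_one h2
        · exact h1
      have hBC : B ⊆ C := by
        intro k hk
        have hki : k ≠ i := fun h1 => hiB (h1 ▸ hk)
        have h2 := hz (pt k) (hptb k hk) (hptT k hki)
        rw [hyC, port_T W (hpt k)] at h2
        by_contra h3
        rw [if_neg h3] at h2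
        exact zero_ne_one h2
      have h4 : (y : L) = (b : L) + ∑ k ∈ C \ B, T k := by
        rw [hyC, hA', hb']
        unfold sST
        rw [← Finset.sum_sdiff hBC]
        abel
      rw [h4]
      apply Submodule.add_mem
      · apply Submodule.subset_span
        rw [Finset.coe_insert]
        exact Set.mem_insert _ _
      · apply hsum
        · intro h5
          exact hiC (Finset.mem_sdiff.mp h5).1
        · exact Finset.sdiff_disjoint
    · have hz := hXs y hXy
      have hA' : A = ∅ := by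
        rcases hA with h1 | h1
        · exact h1
        · exfalso
          have h2 := hz p0 hp0b hp0T
          rw [hyC, h1, port_S W hp0', if_pos (Finset.mem_univ _)] at h2
          exact one_ne_zero h2
      have hBC : Disjoint C B := by
        rw [Finset.disjoint_left]
        intro k hkC hk
        have hki : k ≠ i := fun h1 => hiB (h1 ▸ hk)
        have h2 := hz (pt k) (hptb k hk) (hptT k hki)
        rw [hyC, port_T W (hpt k), if_pos hkC] at h2
        exact one_ne_zero h2
      have h4 : (y : L) = ∑ k ∈ C, T k := by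
        rw [hyC, hA']
        unfold sST
        rw [Finset.sum_empty, zero_add]
      rw [h4]
      exact hsum C hiC hBC
  have hr1 := be_rk hRkU hZ W i h
  have hr2 := (hRk (Ker (co phi i0)) L).2.2.2.1 (incl (Ker (co phi i0)))
    (supp (cl (co phi i0) (T i) h (lam i) D)) Subtype.val_injective
  have hr3 : rk ((incl (Ker (co phi i0))) '' (supp (cl (co phi i0) (T i) h (lam i) D))) ≤
      (insert (b : L) ((Finset.univ \ insert i B).image T) : Finset L).card := by
    unfold rk
    refine le_trans (Submodule.finrank_mono (t := Submodule.span ℤ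
      ((insert (b : L) ((Finset.univ \ insert i B).image T) : Finset L) : Set L)) ?_)
      (finrank_span_finset_le_card _)
    rw [Submodule.span_le]
    rintro _ ⟨y, hy, rfl⟩
    exact key y hy
  have hc1 := Finset.card_insert_le (b : L) ((Finset.univ \ insert i B).image T)
  have hc2 : ((Finset.univ \ insert i B).image T).card ≤ (Finset.univ \ insert i B).card :=
    Finset.card_image_le
  have hc3 : (Finset.univ \ insert i B).card = s - (B.card + 1) := by
    rw [Finset.card_sdiff_of_subset (Finset.subset_univ _), Finset.card_univ, Fintype.card_fin,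
      Finset.card_insert_of_notMem hiB]
  have hc4 : B.card + 1 ≤ s := by
    have h1 := Finset.card_le_univ (insert i B)
    rw [Finset.card_insert_of_notMem hiB, Fintype.card_fin] at h1
    exact h1
  have hc5 : B.card = 0 := by omega
  exact Finset.card_eq_zero.mp hc5

open Classical in
/-- CASE B: all small factors are of the first kind. -/
theorem case_B (hVco : VcoS) (hSpj : SpjS) (hSm : SmallS) (hClp : ClpS) (hG1 : G1pS)
    (hRkU : RkUSS) (hZ : BeZS) (W : Be phi D q f a j s S es T lam) {i : Fin s}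
    {i0 : P} {h : co phi i0 (T i) = 1} {c : RO ℤ} {n : ℕ}
    {G : Fin n → AO ℤ (Ker (co phi i0))} (fd : FD phi D (T i) i0 (lam i) h c n G)
    (hB : ∀ (l : Fin n) (b : Ker (co phi i0)) (jj : P) (e : (RO ℤ)ˣ),
      Spt phi (T i) i0 G l b jj e → ∃ k, k ≠ i ∧ (b : L) = T k ∧ e = lam k) :
    s ≤ (Pll D T lam i).card + ∑ i ∈ big G, rk (supp (G i)) := by
  have hclp := hClp ℤ P L phi D (T i) i0 (lam i) h c n G W.ko.min.fp fd
  have hrk := hG1 ℤ P L phi D (T i) i0 (lam i) h c n G fd
    (fun i b _ hpu _ => absurd hpu (hclp.2 i).1)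
  rw [be_rk hRkU hZ W i h] at hrk
  have hsnp : ∀ l ∈ snp phi (T i) i0 G, ∃ (k : Fin s) (b : Ker (co phi i0)) (jj : P)
      (e : (RO ℤ)ˣ), Spt phi (T i) i0 G l b jj e ∧ k ≠ i ∧ (b : L) = T k ∧ e = lam k := by
    intro l hl
    unfold snp at hl
    obtain ⟨-, h1, h2⟩ := Finset.mem_filter.mp hl
    obtain ⟨-, -, h3⟩ := hSm ℤ P L phi D (T i) i0 (lam i) h c n G fd l h1
    obtain ⟨b, jj, e, sp⟩ := h3 h2
    obtain ⟨k, hk⟩ := hB l b jj e sp
    exact ⟨k, b, jj, e, sp, hk⟩
  have hcard : (snp phi (T i) i0 G).card ≤ (Pll D T lam i).card := by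
    have : Nonempty (Fin s) := ⟨i⟩
    have : Nonempty P := ⟨i0⟩
    choose! kf bf jf ef hspf hki hbk hek using hsnp
    refine Finset.card_le_card_of_injOn kf ?_ ?_
    · intro l hl
      have hl' : l ∈ snp phi (T i) i0 G := hl
      rw [Finset.mem_coe]
      unfold Pll
      rw [Finset.mem_filter]
      exact ⟨Finset.mem_univ _, hki l hl', par_of hVco hSpj W fd (hspf l hl') (hki l hl')
        (hbk l hl') (hek l hl')⟩
    · intro l hl l' hl' hll
      have hl1 : l ∈ snp phi (T i) i0 G := hl
      have hl2 : l' ∈ snp phi (T i) i0 G := hl'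
      by_contra hne
      have h1 := (hspf l hl1).other l' (Ne.symm hne) _ (spt_mem (hspf l' hl2))
      have h2 := (hspf l hl1).bj
      rw [hbk l' hl2] at h1
      rw [hbk l hl1] at h2
      have h3 : kf l = kf l' := hll
      rw [h3] at h2
      rw [h2] at h1
      exact one_ne_zero h1
  omega

/-- ROW BE_CNT. -/
theorem be_cnt (hFD : FDS) (hVco : VcoS) (hSpj : SpjS) (hSm : SmallS) (hClp : ClpS)
    (hG1 : G1pS) (hRkU : RkUSS) (hRk : RkS) (hE1 : E1S) (hMV : MVS) (hEvz : EvzS) (hZ : BeZS)
    (hSf : BeSfS) : BeCntS := by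
  classical
  intro P L _ _ _ _ _ phi D q f a j s S es T lam W i
  obtain ⟨i0, h, c, n, G, fd⟩ := be_fd hFD W i
  by_cases hA : ∃ (l : Fin n) (b : Ker (co phi i0)) (jj : P) (e : (RO ℤ)ˣ)
      (B : Finset (Fin s)), Spt phi (T i) i0 G l b jj e ∧ i ∉ B ∧
        (b : L) = S 0 + S 1 + S 2 + ∑ k ∈ B, T k ∧
        ∀ k, k ≠ i → k ∉ B → bmm D (T i) (T k) (lam i) (lam k) = 0
  · obtain ⟨l, b, jj, e, B, sp, hiB, hb, hpar⟩ := hA
    have hB0 := case_A hVco hSpj hRkU hRk hZ W fd sp hiB hb
    left
    have h1 : Finset.univ.erase i ⊆ Pll D T lam i := by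
      intro k hk
      unfold Pll
      rw [Finset.mem_filter]
      refine ⟨Finset.mem_univ _, Finset.ne_of_mem_erase hk, hpar k (Finset.ne_of_mem_erase hk) ?_⟩
      rw [hB0]
      exact Finset.notMem_empty _
    have h2 := Finset.card_le_card h1
    rw [Finset.card_erase_of_mem (Finset.mem_univ i), Finset.card_univ, Fintype.card_fin] at h2
    omega
  · have hB : ∀ (l : Fin n) (b : Ker (co phi i0)) (jj : P) (e : (RO ℤ)ˣ),
        Spt phi (T i) i0 G l b jj e → ∃ k, k ≠ i ∧ (b : L) = T k ∧ e = lam k := by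
      intro l b jj e sp
      rcases hSf P L phi D q f a j s S es T lam i i0 h c n G l b jj e W fd sp with h1 | h1
      · exact h1
      · obtain ⟨B, h2, h3, h4⟩ := h1
        exact absurd ⟨l, b, jj, e, B, sp, h2, h3, h4⟩ hA
    have hcnt := case_B hVco hSpj hSm hClp hG1 hRkU hZ W fd hB
    have hclp := hClp ℤ P L phi D (T i) i0 (lam i) h c n G W.ko.min.fp fd
    have ha0 : 0 < a := (ko_num W.ko).1
    right
    refine ⟨fun E hE => ?_, fun V b r hTB hsr => ?_⟩
    · -- type A
      have hcls : ClassV (E.coeff 0 : ℝ) (bm D (T i) (lam i)) := by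
        obtain ⟨-, g, e, hR, h1 | ⟨h1, hg0, -⟩⟩ := W.tT i
        · exfalso
          have h2 := V0_ld hR 1
          rw [Nat.cast_one, ← h1] at h2
          have h3 := hE.1
          unfold bm at h3
          rw [h2, ← map_neg] at h3
          have h4 := toLaurent_injective h3
          have h5 := congrArg (fun r => r.coeff 0) h4
          simp [hR.loc.q0] at h5
        · have h2 := classV_A hR hg0
          have h3 := hE.1
          unfold bm at h3 ⊢
          rw [h1] at h3 ⊢
          have h4 := h3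
          rw [V0_A hR, ← map_neg] at h4
          have h5 := congrArg (fun r => r.coeff 1) (toLaurent_injective h4)
          simp only [coeff_sub, coeff_neg, coeff_X_mul] at h5
          have h6 : g.coeff 1 - q.coeff 1 = E.coeff 0 := by omega
          rw [← h6]
          exact h2.1
      unfold bm at hcls
      rw [fd.v00] at hcls
      have h1 := KO.H95.v_sum hE1 hMV hcls (big G)
        (fun i hi => by unfold big at hi; exact (Finset.mem_filter.mp hi).2)
        (fun i => rk (supp (G i))) (fun l _ k hk hkV => by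
          obtain ⟨-, K, hsat, hK, hKr, hDD⟩ := hclp.2 l
          have hV' : ClassV (k : ℝ) ((res K (G l)).coeff 0) := hkV
          have h1 := hEvz k hk P K _ _ hDD hV'
          rw [hKr] at h1
          exact_mod_cast h1)
      have h2 : ((∑ i ∈ big G, rk (supp (G i)) : ℕ) : ℤ) ≤ 2 * E.coeff 0 := by
        have h3 : ((∑ i ∈ big G, rk (supp (G i)) : ℕ) : ℝ) ≤ ((2 * E.coeff 0 : ℤ) : ℝ) := by
          push_cast
          exact h1
        exact_mod_cast h3
      have h3 : (s : ℤ) ≤ (Pll D T lam i).card + (∑ i ∈ big G, rk (supp (G i)) : ℕ) := by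
        exact_mod_cast hcnt
      linarith
    · -- type B
      have hP := KO.H95.classP_tb ha0 hTB
      unfold bm at hP
      rw [fd.v00] at hP
      rcases KO.H95.p_split hE1 hMV hP with h1 | ⟨l, hl, hlo⟩
      · have hb : big G = ∅ := by
          unfold big
          rw [Finset.filter_eq_empty_iff]
          intro k _
          rw [h1 k]
          exact lt_irrefl _
        rw [hb, Finset.sum_empty] at hcnt
        have hr0 : r = 0 := by omega
        subst hr0
        obtain ⟨-, -, hab, hb1, -⟩ := hTB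
        have hb0 : 0 < b := lt_trans ha0 hab
        refine ⟨fun _ => ?_, fun ho => ?_⟩
        · have h2 : 1 < b⁻¹ := (one_lt_inv₀ hb0).mpr hb1
          push_cast
          linarith
        · exact absurd ho (by decide)
      · have hsum : ∑ i ∈ big G, rk (supp (G i)) ≤ rk (supp (G l)) := by
          have h2 : big G ⊆ {l} := by
            intro k hk
            rw [Finset.mem_singleton]
            by_contra hkl
            unfold big at hk
            have h3 := (Finset.mem_filter.mp hk).2
            rw [hlo k hkl] at h3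
            exact lt_irrefl _ h3
          refine (Finset.sum_le_sum_of_subset h2).trans ?_
          rw [Finset.sum_singleton]
        obtain ⟨-, K, hsat, hK, hKr, hDD⟩ := hclp.2 l
        have hP' : ClassP b⁻¹ ((res K (G l)).coeff 0) := hl
        have hlt : rk (supp (G l)) < 2 * j + 1 := by
          have h2 := (hRk (Ker (co phi i0)) L).2.2.1 (supp (G l))
          have h3 : Module.finrank ℤ (Ker (co phi i0)) + 1 = Module.finrank ℤ L := by
            apply (hRk L L).1
            intro h0
            rw [h0] at h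
            exact zero_ne_one h
          have h4 := W.ko.rk
          omega
        have hB' := W.ko.ih _ hlt b⁻¹ P K _ _ hDD hP' hKr
        exact KO.H95.tb_end ha0 hTB (by omega) hB'

end

end Pool.Agent.B5.KO29
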