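import Pool.Agent.Lib.MP_b5021c_nt.IfaceOC
import Pool.Agent.Lib.MP_b5021c_nt.O1.H12.Cnt
import Pool.Agent.Lib.MP_b5021c_nt.KO.H95.Bnk
import Pool.Agent.Lib.MP_b5021c_nt.KO.H40.Px

/-!
# Board b5, K ODD, (O4), cycles of length at least five: row OC_S5C, the core (helper29)

`F` = the closing B of `D` at `Z 2` (one factor, restricted to its lattice), `S = Z 0`,
`S1 = Z (-1)` a mutual pair of `F`; the closing A at `S`.
-/

set_option linter.unusedSectionVars false

namespace Pool.Agent.B5.OC29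

open scoped LaurentPolynomial
open Polynomial
open Pool.Agent.B5.KE
open Pool.Agent.B5.KO67
open Pool.Agent.B5.O1.H12
open Pool.Agent.B5.Nr.Sch (Loc)

/-- No double zero of `q - f` on the circle. -/
theorem nod_A (hNd : Nd3S) {q f : ℤ[X]} {a : ℝ} (h : Loc q f a) (hu : f.coeff 0 = 1)
    (hqf0 : q - f ≠ 0) :
    ∀ z0 : ℂ, ‖z0‖ = 1 → ¬ (X - C z0) ^ 2 ∣ (q - f).map (Coef.emb : ℤ →+* ℂ) := by
  intro z0 hz0
  refine hNd (q.map (Coef.emb : ℤ →+* ℂ)) ((q - f).map (Coef.emb : ℤ →+* ℂ)) z0 ?_ ?_ ?_ ?_ ?_ hz0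
  · unfold Pool.Agent.MP_b5021c_nt.nz
    rw [roots_loc h]
    rfl
  · intro z hz
    rw [ev_map]
    exact q_ne h z hz
  · intro z hz
    rw [ev_map, ev_map, map_sub]
    have h3 := h.le z hz
    have h4 : (aeval z f * (starRingEnd ℂ) (aeval z q)).re ≤ ‖aeval z q‖ ^ 2 := by
      have h5 := Complex.re_le_norm (aeval z f * (starRingEnd ℂ) (aeval z q))
      rw [norm_mul, RCLike.norm_conj] at h5
      nlinarith [norm_nonneg (aeval z q)]
    rw [sub_mul, Complex.sub_re, Complex.mul_conj, Complex.ofReal_re, Complex.normSq_eq_norm_sq]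
    linarith
  · exact (Polynomial.map_ne_zero_iff emb_inj).mpr hqf0
  · refine ⟨0, by simp, ?_⟩
    rw [ev_map]
    have h3 : aeval (0 : ℂ) (q - f) = (((q - f).coeff 0 : ℤ) : ℂ) := by
      rw [← coeff_zero_eq_aeval_zero']
      simp
    rw [h3, coeff_sub, h.q0, hu]
    norm_num

section

variable {P L : Type} [Fintype P] [DecidableEq P] [AddCommGroup L] [Module.Free ℤ L]
  [Module.Finite ℤ L] {phi : L →+ (P → ℤ)} {D : AO ℤ L}

/-- All factors small: the coefficient of a ray is a unit times the constant coefficient. -/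
theorem small_all (hSm : SmallS) (hRF : RayFacS) (hG0 : G0S) (hC0 : Coeff0S) (hW : WWfS)
    {S : L} {i0 : P} {eta : (RO ℤ)ˣ} {h : co phi i0 S = 1} {c : RO ℤ} {n : ℕ}
    {G : Fin n → AO ℤ (Ker (co phi i0))} (fd : FD phi D S i0 eta h c n G) (hI : ImS phi S)
    (hs : ∀ l, ¬ 1 < M ((G l).coeff 0)) {T : Ker (co phi i0)}
    (hT : Ray (cl (co phi i0) S h eta D) T) :
    ∃ u : (RO ℤ)ˣ, (cl (co phi i0) S h eta D).coeff T =
      (u : RO ℤ) * (D.coeff 0 + (eta : RO ℤ) * D.coeff S) := by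
  classical
  have key : ∀ a : Ker (co phi i0), (∀ j, phi S j = 0 → phi (a : L) j = 0) → a = 0 := by
    intro a ha
    obtain ⟨k, hk⟩ := hI (a : L) ha
    have h1 : co phi i0 (a : L) = 0 := a.2
    rw [hk, map_zsmul, h, smul_eq_mul, mul_one] at h1
    apply Subtype.ext
    rw [hk, h1, zero_smul]
    rfl
  have inj : Function.Injective (phO phi S i0) := by
    rw [injective_iff_map_eq_zero]
    intro a ha
    apply key
    intro j hj
    have h4 : phO phi S i0 a j = 0 := by rw [ha]; rfl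
    change (if phi S j = 0 then phi (a : L) j else 0) = 0 at h4
    rw [if_pos hj] at h4
    exact h4
  have hbin : ∀ a : Ker (co phi i0), WW (phK phi (co phi i0)) (II phi S i0) (OO phi S) a →
      Bin (phO phi S i0) a := by
    intro a ha j
    change (if phi S j = 0 then phi (a : L) j else 0) = 0 ∨
      (if phi S j = 0 then phi (a : L) j else 0) = 1
    by_cases hj : phi S j = 0
    · rw [if_pos hj]
      exact ha.1 j (by
        unfold OO
        exact Finset.mem_filter.mpr ⟨Finset.mem_univ _, hj⟩)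
    · left
      rw [if_neg hj]
  obtain ⟨l, hl⟩ := hRF ℤ P L phi D S i0 eta h c n G fd T hT
  set H : AO ℤ (Ker (co phi i0)) := cst c * ∏ i ∈ Finset.univ.erase l, G i with hH
  have hsplit : cl (co phi i0) S h eta D = G l * H := by
    rw [fd.eq, hH, ← Finset.mul_prod_erase Finset.univ G (Finset.mem_univ l)]
    ring
  have hG0s := hG0 ℤ P L phi D S i0 eta h fd.cc
  obtain ⟨-, lam, hpos, -⟩ := id hG0s.1
  have hGpos : ∀ i, Pos lam (G i) := fun i => (fd.full i lam hpos).2.1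
  have hprod0 := fun s : Finset (Fin n) => H29.prod_coeff_zero hC0 G lam hGpos s
  have hG00 : ∀ i, (G i).coeff 0 ≠ 0 := fun i => (fd.st i).1
  have hH0 : H.coeff 0 = c * ∏ i ∈ Finset.univ.erase l, (G i).coeff 0 := by
    rw [hH, H56.cstm, (hprod0 _).1]
  have hH00 : H.coeff 0 ≠ 0 := by
    rw [hH0]
    exact mul_ne_zero fd.c0 (Finset.prod_ne_zero_iff.mpr fun i _ => hG00 i)
  have hbinV : ∀ a ∈ supp (G l * H), Bin (phO phi S i0) a := by
    intro a ha
    rw [← hsplit] at ha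
    exact hbin a (hG0s.2.2.2.1 a ha)
  have hco : (cl (co phi i0) S h eta D).coeff T = (G l).coeff T * H.coeff 0 := by
    rw [hsplit]
    exact H67.coeff_disj hW (phO phi S i0) inj (G l) H hbinV (hG00 l) hH00 T hl
  obtain ⟨hu0, ⟨b, hb0, hsup, e, hGe⟩, -⟩ := hSm ℤ P L phi D S i0 eta h c n G fd l (hs l)
  have hTb : T = b := by
    rw [hsup] at hl
    rcases hl with h1 | h1
    · exact absurd h1 hT.2.1
    · exact h1
  have hGT : (G l).coeff T = (G l).coeff 0 * -((e⁻¹ : (RO ℤ)ˣ) : RO ℤ) := by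
    rw [hTb]
    conv_lhs => rw [hGe]
    rw [H56.cstm, AddMonoidAlgebra.coeff_sub, Finsupp.sub_apply, AddMonoidAlgebra.coeff_single,
      Finsupp.single_eq_same]
    have h2 : (1 : AO ℤ (Ker (co phi i0))).coeff b = 0 := by
      change (AddMonoidAlgebra.single (0 : Ker (co phi i0)) (1 : RO ℤ)).coeff b = 0
      rw [AddMonoidAlgebra.coeff_single, Finsupp.single_eq_of_ne hb0]
    rw [h2, zero_sub]
  have hv : D.coeff 0 + (eta : RO ℤ) * D.coeff S = (G l).coeff 0 * H.coeff 0 := by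
    rw [fd.v00, hH0, ← Finset.mul_prod_erase Finset.univ (fun i => (G i).coeff 0)
      (Finset.mem_univ l)]
    ring
  refine ⟨-e⁻¹, ?_⟩
  rw [hco, hGT, hv, Units.val_neg]
  ring

/-- The data of the closing B at `Z 2` (`S = Z 0`, `S1 = Z (-1)`, `Q = q + z f`,
`g = f + z (f - γ)`). -/
structure Hf (phi : L →+ (P → ℤ)) (F : AO ℤ L) (S S1 : L) (e e1 : (RO ℤ)ˣ) (Q g : ℤ[X]) (b : ℝ)
    (j : ℕ) : Prop where
  dd : DD phi F
  m : Mut F S S1 (ld e 1) e1
  im : ImS phi S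
  fr : Module.finrank ℤ L + 1 = 2 * j
  j2 : 2 ≤ j
  rn : RN F S Q g e b
  g0 : g.coeff 0 = 1
  face : ∃ lam : L →+ ℤ, lam S = 0 ∧ lam S1 = 0 ∧ ∀ x ∈ supp F, 0 ≤ lam x ∧
    (lam x = 0 → ∃ k l : ℤ, (l = 0 ∨ l = 1) ∧ x = k • S + l • S1)

variable {S S1 : L} {e e1 : (RO ℤ)ˣ} {Q g : ℤ[X]} {b : ℝ} {j : ℕ}

/-- The ray `S1` of the closing A at `S`. -/
theorem Hf.ray (H : Hf phi D S S1 e e1 Q g b j) (hMco : McoS) {i0 : P} (h : co phi i0 S = 1) :
    ∃ T : Ker (co phi i0), (T : L) = S1 ∧ Ray (cl (co phi i0) S h (-e) D) T ∧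
      (e1 : RO ℤ) * (cl (co phi i0) S h (-e) D).coeff T = toLaurent ((1 + X) * g) := by
  obtain ⟨hdis, hA1, hA11, -⟩ := hMco ℤ P L phi D S S1 (ld e 1) e1 H.dd.inj H.dd.bin H.m
  have hSi : phi S i0 = 1 := h
  have hS1i : phi S1 i0 = 0 := by
    rcases hdis i0 with h1 | h1
    · rw [hSi] at h1; exact absurd h1 one_ne_zero
    · exact h1
  have hX : ((ld e 1 : (RO ℤ)ˣ) : RO ℤ) * D.coeff S = toLaurent (X * g) := by
    have h1 := ld_S H.rn 1
    rw [pow_one] at h1
    exact h1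
  have hco : ∀ x : Ker (co phi i0), (cl (co phi i0) S h (-e) D).coeff x =
      D.coeff (x : L) + ((-e : (RO ℤ)ˣ) : RO ℤ) * D.coeff ((x : L) + S) :=
    H47.cl_coeff_bin (co phi i0) S h (-e) D (fun y hy => H.dd.bin y hy i0)
  have hTT : (LaurentPolynomial.T (-1) : RO ℤ) * LaurentPolynomial.T 1 = 1 := by
    rw [← LaurentPolynomial.T_add, neg_add_cancel, LaurentPolynomial.T_zero]
  have hval : (e1 : RO ℤ) * (D.coeff S1 + ((-e : (RO ℤ)ˣ) : RO ℤ) * D.coeff (S1 + S)) =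
      toLaurent ((1 + X) * g) := by
    rw [hX] at hA1 hA11
    have hv : ((ld e 1 : (RO ℤ)ˣ) : RO ℤ) = LaurentPolynomial.T 1 * (e : RO ℤ) := by
      have := ld_val e 1
      exact this
    rw [hv] at hA11
    have h1g : (toLaurent ((1 + X) * g) : RO ℤ) =
        (1 + LaurentPolynomial.T 1) * toLaurent g := by
      rw [map_mul toLaurent, map_add toLaurent, map_one, toLaurent_X]
    rw [add_comm S1 S, Units.val_neg, h1g]
    rw [map_mul, toLaurent_X] at hA1 hA11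
    linear_combination hA1 - (LaurentPolynomial.T (-1) : RO ℤ) * hA11 +
      ((e : RO ℤ) * (e1 : RO ℤ) * D.coeff (S + S1) + toLaurent g) * hTT
  obtain ⟨lam, lS, lS1, hl⟩ := H.face
  obtain ⟨T, hT⟩ : ∃ T : Ker (co phi i0), (T : L) = S1 := ⟨⟨S1, hS1i⟩, rfl⟩
  have hT0 : (e1 : RO ℤ) * (cl (co phi i0) S h (-e) D).coeff T = toLaurent ((1 + X) * g) := by
    rw [hco, hT]
    exact hval
  refine ⟨T, hT, ⟨?_, ?_, lam.comp (incl _), ?_, ?_⟩, hT0⟩
  · intro h0
    rw [h0, mul_zero] at hT0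
    have h1 := hT0.symm
    rw [toLaurent_eq_zero] at h1
    have h2 : ((1 + X) * g : ℤ[X]).coeff 0 = 1 := by
      rw [mul_coeff_zero, H.g0]
      simp
    rw [h1, coeff_zero] at h2
    exact zero_ne_one h2
  · intro h0
    apply H.m.r1.2.1
    rw [← hT, h0]
    rfl
  · change lam (T : L) = 0
    rw [hT, lS1]
  · intro y hy hy0 hyT
    change 0 < lam (y : L)
    have h3 : (cl (co phi i0) S h (-e) D).coeff y ≠ 0 := hy
    rw [hco] at h3
    have hyi : phi (y : L) i0 = 0 := y.2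
    obtain ⟨k, hk⟩ : ∃ k : ℤ, D.coeff ((y : L) + k • S) ≠ 0 := by
      by_contra hcon
      push Not at hcon
      apply h3
      have q1 := hcon 0
      have q2 := hcon 1
      rw [zero_smul, add_zero] at q1
      rw [one_smul] at q2
      rw [q1, q2, mul_zero, add_zero]
    obtain ⟨h5, h6⟩ := hl _ hk
    have h7 : lam ((y : L) + k • S) = lam (y : L) := by
      rw [map_add, map_zsmul, lS, smul_zero, add_zero]
    rw [h7] at h5 h6
    by_contra hneg
    obtain ⟨k', l', hl', hkl⟩ := h6 (by omega)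
    have hi0 := congrFun (congrArg phi hkl) i0
    simp only [map_add, map_zsmul, Pi.add_apply, Pi.smul_apply, smul_eq_mul, hyi, hSi, hS1i,
      mul_zero, mul_one, add_zero, zero_add] at hi0
    rw [hi0] at hkl
    have hyl : (y : L) = l' • S1 := by
      have h8 : (y : L) + k' • S = l' • S1 + k' • S := by rw [hkl]; abel
      exact add_right_cancel h8
    rcases hl' with h8 | h8
    · apply hy0
      apply Subtype.ext
      rw [hyl, h8, zero_smul]
      rfl
    · apply hyT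
      apply Subtype.ext
      rw [hyl, h8, one_smul, hT]

/-- The load A at `S` is drop free, the load B has a drop. -/
theorem Hf.full (H : Hf phi D S S1 e e1 Q g b j) (hRkU : RkUSS) (hLmn : LMNS) {i0 : P}
    (h : co phi i0 S = 1) :
    Module.finrank ℤ L = rk (supp (cl (co phi i0) S h (-e) D)) + 1 ∧
      Module.finrank ℤ L ≠ rk (supp (cl (co phi i0) S h (ld e 1) D)) + 1 := by
  have h1 : Module.finrank ℤ (US (ld e 1) S D) ≤ Module.finrank ℤ L := Submodule.finrank_le _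
  have hd := H63.Sel.dropAt_of_mut hRkU hLmn H.dd H.m (g := Module.finrank ℤ L -
    Module.finrank ℤ (US (ld e 1) S D)) (by omega)
  refine ⟨hd.fr (-e) (neA e) i0 h, fun h2 => ?_⟩
  have h3 := hRkU ℤ P L phi D S i0 h (ld e 1) H.dd.inj H.dd.bin (H.dd.bin _ H.m.r0.1)
  exact H.m.m0 (KE.US_top (by rw [h3, h2]) S1)

/-- THE SMALL FACTORS of the closing A at `S`: impossible. -/
theorem Hf.no_snp (H : Hf phi D S S1 e e1 Q g b j) (hT : TsgS) (hNd : Nd3S) (hSm : SmallS)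
    (hRF : RayFacS) (hG0 : G0S) (hC0 : Coeff0S) (hW : WWfS) (hE1 : E1S) (hMV : MVS)
    (hRkU : RkUSS) (hLmn : LMNS) (hMco : McoS) {i0 : P} (h : co phi i0 S = 1) {c : RO ℤ} {n : ℕ}
    {G : Fin n → AO ℤ (Ker (co phi i0))} (fd : FD phi D S i0 (-e) h c n G) (hc : M c = 1) :
    ¬ (snp phi S i0 G).Nonempty := by
  classical
  intro hsn
  obtain ⟨E', hE, hE0, hEpos, hEz⟩ := typa H.rn.loc H.g0 H.rn.ne
  have hQ : Q - g = -(X * E') := by rw [← hE]; ring
  have hE'0 : E' ≠ 0 := by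
    rintro rfl
    rw [coeff_zero] at hEpos
    omega
  have hQg : Q - g ≠ 0 := by
    rw [hQ]
    exact neg_ne_zero.mpr (mul_ne_zero X_ne_zero hE'0)
  obtain ⟨hfull, hbad⟩ := H.full hRkU hLmn h
  have hv := V0_A H.rn
  obtain ⟨t, ht0, -, hte⟩ := hT P L phi D S i0 (-e) (ld e 1) h c n G 0 (Q - g) fd hc hsn hfull
    (neA e).symm hbad (by rw [hv, LaurentPolynomial.T_zero, one_mul])
    (nod_A hNd H.rn.loc H.g0 hQg)
  have hX := V0_ld H.rn 1
  rw [pow_one] at hX
  have hX' : D.coeff 0 + ((ld e 1 : (RO ℤ)ˣ) : RO ℤ) * D.coeff S = toLaurent (Q + X * g) := hX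
  have hr : ((ld e 1 : (RO ℤ)ˣ) : RO ℤ) * (((-e)⁻¹ : (RO ℤ)ˣ) : RO ℤ) =
      -LaurentPolynomial.T 1 := by
    have h1 : ((ld e 1 : (RO ℤ)ˣ) : RO ℤ) = LaurentPolynomial.T 1 * (e : RO ℤ) := ld_val e 1
    have h2 : ((-e : (RO ℤ)ˣ) : RO ℤ) * (((-e)⁻¹ : (RO ℤ)ˣ) : RO ℤ) = 1 := (-e).mul_inv
    rw [Units.val_neg] at h2
    rw [h1]
    linear_combination (-(LaurentPolynomial.T 1) : RO ℤ) * h2
  rw [hX', hr, hv, sub_neg_eq_add] at hte
  -- `E' (0) = 1`
  have hE'1 : E'.coeff 0 = 1 := by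
    have h1 : |(-E').coeff 0| = 1 := by
      refine H67.low_unit (p := toLaurent (Q - g)) (x := (1 + LaurentPolynomial.T 1) * t) (m := 0)
        (n := 1) (r := Q + X * g) ?_ ?_ ?_ ?_
      · rw [LaurentPolynomial.T_zero, one_mul, hte]
        ring
      · rw [coeff_add, coeff_X_mul_zero, add_zero, H.rn.loc.q0, abs_one]
      · rw [hQ, ← mul_neg, map_mul, toLaurent_X]
      · rw [coeff_neg]
        omega
    rw [coeff_neg, abs_neg, abs_of_nonneg (by omega)] at h1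
    exact h1
  -- all factors are small
  have hV := (classV_A H.rn H.g0).1
  rw [← hE0, hE'1, Int.cast_one] at hV
  have hall : ∀ l, ¬ 1 < M ((G l).coeff 0) := by
    intro l hl
    have hV2 := hV
    rw [fd.v00] at hV2
    have h1 := KO.H95.v_sum hE1 hMV hV2 {l} (by
      intro i hi
      rw [Finset.mem_singleton.mp hi]
      exact hl) (fun _ => 4) (fun _ _ k hk _ => by omega)
    rw [Finset.sum_singleton] at h1
    norm_num at h1
  obtain ⟨T, -, hTr, hTc⟩ := H.ray hMco h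
  obtain ⟨u, hu⟩ := small_all hSm hRF hG0 hC0 hW fd H.im hall hTr
  rw [hu, hv, hQ] at hTc
  have hEg : E' = (1 + X) * g := by
    obtain ⟨n', s', hs', hu'⟩ := MP_b5021c_nt.Unr.unit_R ((e1 * u : (RO ℤ)ˣ) : RO ℤ)
      (e1 * u).isUnit
    rw [LaurentPolynomial.single_eq_C_mul_T, Units.val_mul] at hu'
    have h1 : (LaurentPolynomial.T (n' + 1) : RO ℤ) * toLaurent (C (-s') * E') =
        LaurentPolynomial.T 0 * toLaurent ((1 + X) * g) := by
      rw [LaurentPolynomial.T_zero, one_mul, ← hTc, map_neg toLaurent, map_mul toLaurent X,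
        toLaurent_X, map_mul toLaurent (C (-s')), toLaurent_C, LaurentPolynomial.T_add, map_neg]
      linear_combination (LaurentPolynomial.T 1 * toLaurent E' : RO ℤ) * hu'
    have hg1 : ((1 + X) * g : ℤ[X]).coeff 0 = 1 := by
      rw [mul_coeff_zero, H.g0]
      simp
    obtain ⟨-, h2⟩ := H78.T_eq (by
      rw [mul_coeff_zero, coeff_C_zero, hE'1]
      rcases hs' with h | h <;> rw [h] <;> norm_num) (by rw [hg1]; exact one_ne_zero) h1
    have h3 := congrArg (fun r : ℤ[X] => r.coeff 0) h2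
    simp only [hg1] at h3
    rw [mul_coeff_zero, coeff_C_zero, hE'1, mul_one] at h3
    rw [h3, C_1, one_mul] at h2
    exact h2
  -- the end
  have h5 : toLaurent ((1 - X) * E') = (1 + LaurentPolynomial.T 1) * (t * toLaurent (Q - g)) := by
    rw [← hte]
    congr 1
    have h6 : Q = g - X * E' := by rw [← hE]; ring
    rw [h6]
    linear_combination hEg
  rw [hQ, map_mul, map_neg, map_mul, toLaurent_X] at h5
  have hEL : (toLaurent E' : RO ℤ) ≠ 0 := toLaurent_ne_zero.mpr hE'0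
  have h6 : (toLaurent (1 - X) : RO ℤ) = -((1 + LaurentPolynomial.T 1) * t *
      LaurentPolynomial.T 1) := by
    apply mul_right_cancel₀ hEL
    rw [h5]
    ring
  obtain ⟨z, hz⟩ := circle_of (-1) (by simp)
  have h7 := congrArg (evR z) h6
  have h8 : evR z (LaurentPolynomial.T 1 : RO ℤ) = -1 := by
    rw [← toLaurent_X, evR_poly, aeval_X, hz]
  rw [map_neg, map_mul, map_mul, map_add, map_one, h8, evR_poly, map_sub, map_one, aeval_X,
    hz] at h7
  norm_num at h7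

/-- THE CORE: the value of `E - γ` is at most `j - 1`, against the second point. -/
theorem Hf.fin (H : Hf phi D S S1 e e1 Q g b j) (hT : TsgS) (hNd : Nd3S) (hSm : SmallS)
    (hRF : RayFacS) (hG0 : G0S) (hC0 : Coeff0S) (hW : WWfS) (hE1 : E1S) (hMV : MVS)
    (hRkU : RkUSS) (hLmn : LMNS) (hMco : McoS) (hFD : FDS) (hMm : MmulS) (hRk : RkS)
    (hEvz : EvzS) (hEv1 : BdV ℤ 1 1) (hFcl : FclS) (hU : UnitRS)
    (hn : g.coeff 1 - Q.coeff 1 + 1 ≤ j) {y : ℝ} (hy : y * j = 1)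
    (hII : (aeval y Q : ℝ) ≤ 0) : False := by
  classical
  obtain ⟨E', hE, hE0, hEpos, hEz⟩ := typa H.rn.loc H.g0 H.rn.ne
  have hQ : Q - g = -(X * E') := by rw [← hE]; ring
  have hj := H.j2
  have hfr := H.fr
  obtain ⟨i0, h⟩ := KE.exists_port H.dd H.m.r0
  obtain ⟨n', hn'⟩ : ∃ n' : ℕ, (n' : ℤ) = E'.coeff 0 :=
    ⟨(E'.coeff 0).toNat, Int.toNat_of_nonneg (by omega)⟩
  have hV := (classV_A H.rn H.g0).1
  rw [← hE0, ← hn', Int.cast_natCast] at hV
  obtain ⟨T, -, hTr, hTc⟩ := H.ray hMco h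
  have hg1 : ((1 + X) * g : ℤ[X]).coeff 0 = 1 := by
    rw [mul_coeff_zero, H.g0]
    simp
  obtain ⟨c, G, hc, hcl, hDG, hVG⟩ := H67.one_fac hFD hG0 hC0 hE1 hMV hMm hRk hW hRF phi D S i0 h
    (-e) (n' : ℝ) H.dd (by omega) H.m.r0 H.im hV (H.full hRkU hLmn h).1
    (fun c n G fd hc => H.no_snp hT hNd hSm hRF hG0 hC0 hW hE1 hMV hRkU hLmn hMco h fd hc)
    T hTr (e1 : RO ℤ) 0 ((1 + X) * g) (by rw [hg1, abs_one])
    (by rw [hTc, LaurentPolynomial.T_zero, one_mul])
  have hker := KE.finrank_ker hRk h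
  have hn2 : 2 ≤ n' := by
    by_contra hcon
    have h1 : n' = 1 := by omega
    rw [h1, Nat.cast_one] at hVG
    have h2 := hEv1 P _ _ G hDG hVG
    have h3 : Module.finrank ℤ (Ker (co phi i0)) ≤ 1 := by exact_mod_cast h2
    omega
  have hnj : n' + 1 = j := by
    have h2 := hEvz n' hn2 P _ _ G hDG hVG
    have h3 : Module.finrank ℤ (Ker (co phi i0)) ≤ 2 * n' := by exact_mod_cast h2
    omega
  have hzf : ZFree G := by
    rcases hFcl ℤ P _ _ G (n' : ℝ) hDG hVG (by omega) with h2 | ⟨N', b', D', hN', hD', hV2, hr2⟩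
    · exact h2
    · exfalso
      exact fcl_no hEvz hEv1 hn2 hN' hD' hV2 (by rw [hr2]; omega)
  have hc0 : c ≠ 0 := ((hMV ℤ).1 _ _ hc).1
  have hcoef : ∀ y : Ker (co phi i0), (cl (co phi i0) S h (-e) D).coeff y = c * G.coeff y := by
    intro y
    rw [hcl, H56.cstm]
  have h00 : (cl (co phi i0) S h (-e) D).coeff 0 =
      D.coeff 0 + ((-e : (RO ℤ)ˣ) : RO ℤ) * D.coeff S := by
    have cc : CC phi D S i0 (-e) := ⟨H.dd, by omega, H.m.r0, h, ((hMV ℤ).1 _ _ hV).1⟩
    exact (hG0 ℤ P L phi D S i0 (-e) h cc).2.2.1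
  rw [hcoef] at hTc
  have hGT : G.coeff T ≠ 0 := by
    intro h0
    rw [h0, mul_zero, mul_zero] at hTc
    have h1 := hTc.symm
    rw [toLaurent_eq_zero] at h1
    rw [h1, coeff_zero] at hg1
    exact zero_ne_one hg1
  obtain ⟨s, hs⟩ := zfree_E hU (E := E') (c := c) (w := (e1 : RO ℤ)) hzf hDG.st.1 hGT e1.isUnit hg1
    (by omega) (by rw [← hcoef, h00, V0_A H.rn, hQ, map_neg]) hTc
  have hs' : s = (j : ℤ) - 1 := by
    have h1 := congrArg (fun r : ℤ[X] => r.coeff 0) hs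
    simp only [mul_coeff_zero, coeff_C_zero] at h1
    rw [← mul_coeff_zero, hg1, mul_one, ← hn'] at h1
    omega
  have hgz : ∀ z : ℂ, ‖z‖ < 1 → (aeval z g : ℂ) ≠ 0 := by
    intro z hz h0
    apply hEz z hz
    rw [hs, map_mul, map_mul, h0, mul_zero, mul_zero]
  have hj0 : (2 : ℝ) ≤ j := by exact_mod_cast hj
  have hy0 : 0 < y := by
    by_contra hneg
    push Not at hneg
    nlinarith
  have hy1 : y < 1 := by nlinarith
  have hgp := KO.H40.pos_zf (by rw [H.g0]; norm_num) hgz hy0.le hy1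
  have hQe : Q = g * (1 - C ((j : ℤ) - 1) * X * (1 + X)) := by
    have h1 : Q = g - X * E' := by rw [← hE]; ring
    rw [h1, hs, hs']
    ring
  rw [hQe, map_mul] at hII
  have h2 : (aeval y (1 - C ((j : ℤ) - 1) * X * (1 + X) : ℤ[X]) : ℝ) = y ^ 2 := by
    simp only [map_sub, map_mul, map_add, map_one, aeval_X, aeval_C]
    have h3 : (algebraMap ℤ ℝ) ((j : ℤ)) = (j : ℝ) := by simp
    rw [h3]
    linear_combination (-(y + 1) : ℝ) * hy
  rw [h2] at hII
  have h4 : 0 < (aeval y g : ℝ) * y ^ 2 := mul_pos hgp (by positivity)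
  linarith

end

end Pool.Agent.B5.OC29
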